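import Mathlib

/-!
# Stamp foldings with rays: definitions and parity lemmas
-/

namespace Pool.Agent.H586R2.Stamp

/-- `x` lies strictly between `a` and `b`. -/
def Btw (a x b : ℤ) : Prop := (a < x ∧ x < b) ∨ (b < x ∧ x < a)

instance (a x b : ℤ) : Decidable (Btw a x b) := by unfold Btw; infer_instance

theorem Btw_neg (a x b : ℤ) : Btw (-a) (-x) (-b) ↔ Btw a x b := by
  unfold Btw; omega

/-- A block `i..j` of a folding with `n` creases, in positions `p`: arc `k` joins the points `k` and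
`k + 1` on side `k % 2`; if `i ≠ 0` a ray leaves the point `i` on the side of `i - 1`, and if
`j ≠ n` a ray leaves the point `j` on the side of `j`. -/
structure GF (n : ℕ) (d : ℕ → Bool) (i j : ℕ) (p : ℕ → ℤ) : Prop where
  inj : ∀ x y, i ≤ x → x ≤ j → i ≤ y → y ≤ j → p x = p y → x = y
  dir : ∀ k, i ≤ k → k < j → (d k = true ↔ p k < p (k + 1))
  nc : ∀ k l, i ≤ k → k < j → i ≤ l → l < j → k ≠ l → k % 2 = l % 2 →
    (Btw (p k) (p l) (p (k + 1)) ↔ Btw (p k) (p (l + 1)) (p (k + 1)))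
  expL : i ≠ 0 → ∀ l, i ≤ l → l < j → l % 2 ≠ i % 2 → ¬ Btw (p l) (p i) (p (l + 1))
  expR : j ≠ n → ∀ l, i ≤ l → l < j → l % 2 = j % 2 → ¬ Btw (p l) (p j) (p (l + 1))

/-- number of arcs in `[u, v)` strictly over the position `q` -/
def ovr (p : ℕ → ℤ) (u v : ℕ) (q : ℤ) : ℕ :=
  ∑ k ∈ Finset.Ico u v, if Btw (p k) q (p (k + 1)) then 1 else 0

/-- the left ray passes over the point at position `q` -/
def rayL (d : ℕ → Bool) (i : ℕ) (p : ℕ → ℤ) (q : ℤ) : ℕ :=
  if i ≠ 0 ∧ ((d (i - 1) = true ∧ q < p i) ∨ (d (i - 1) = false ∧ p i < q)) then 1 else 0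

/-- the right ray passes over the point at position `q` -/
def rayR (n : ℕ) (d : ℕ → Bool) (j : ℕ) (p : ℕ → ℤ) (q : ℤ) : ℕ :=
  if j ≠ n ∧ ((d j = true ∧ p j < q) ∨ (d j = false ∧ q < p j)) then 1 else 0

/-- the total width of the arcs and rays of the block -/
def cost (n : ℕ) (d : ℕ → Bool) (i j : ℕ) (p : ℕ → ℤ) : ℕ :=
  ∑ x ∈ Finset.Ico i (j + 1), (ovr p i j (p x) + rayL d i p (p x) + rayR n d j p (p x))

/-! ### reflection -/

theorem GF.flip {n : ℕ} {d : ℕ → Bool} {i j : ℕ} {p : ℕ → ℤ} (h : GF n d i j p) :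
    GF n (fun k => !(d k)) i j (fun k => -(p k)) where
  inj x y h1 h2 h3 h4 h5 := h.inj x y h1 h2 h3 h4 (by simpa using h5)
  dir k h1 h2 := by
    have h3 := h.dir k h1 h2
    have h4 : p k ≠ p (k + 1) := fun e => by
      have := h.inj k (k + 1) h1 (by omega) (by omega) (by omega) e
      omega
    cases hd : d k
    · rw [hd] at h3
      simp only [Bool.false_eq_true, false_iff, not_lt] at h3
      simp only [Bool.not_false, true_iff]
      omega
    · rw [hd] at h3
      simp only [true_iff] at h3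
      simp only [Bool.not_true, Bool.false_eq_true, false_iff, not_lt]
      omega
  nc k l h1 h2 h3 h4 h5 h6 := by
    rw [Btw_neg, Btw_neg]
    exact h.nc k l h1 h2 h3 h4 h5 h6
  expL h0 l h1 h2 h3 := by
    rw [Btw_neg]
    exact h.expL h0 l h1 h2 h3
  expR h0 l h1 h2 h3 := by
    rw [Btw_neg]
    exact h.expR h0 l h1 h2 h3

theorem over_flip (p : ℕ → ℤ) (u v : ℕ) (q : ℤ) :
    ovr (fun k => -(p k)) u v (-q) = ovr p u v q := by
  unfold ovr
  refine Finset.sum_congr rfl fun k _ => ?_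
  rw [if_congr (Btw_neg _ _ _) rfl rfl]

theorem rayL_flip (d : ℕ → Bool) (i : ℕ) (p : ℕ → ℤ) (q : ℤ) :
    rayL (fun k => !(d k)) i (fun k => -(p k)) (-q) = rayL d i p q := by
  unfold rayL
  refine if_congr ?_ rfl rfl
  cases h : d (i - 1) <;> simp [h]

theorem rayR_flip (n : ℕ) (d : ℕ → Bool) (j : ℕ) (p : ℕ → ℤ) (q : ℤ) :
    rayR n (fun k => !(d k)) j (fun k => -(p k)) (-q) = rayR n d j p q := by
  unfold rayR
  refine if_congr ?_ rfl rfl
  cases h : d j <;> simp [h]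

theorem cost_flip (n : ℕ) (d : ℕ → Bool) (i j : ℕ) (p : ℕ → ℤ) :
    cost n (fun k => !(d k)) i j (fun k => -(p k)) = cost n d i j p := by
  unfold cost
  refine Finset.sum_congr rfl fun x _ => ?_
  rw [over_flip, rayL_flip, rayR_flip]

/-! ### crossing a position -/

theorem ex_cross (p : ℕ → ℤ) (q : ℤ) (u v : ℕ) (huv : u ≤ v) (hne : ∀ k, u ≤ k → k ≤ v → p k ≠ q)
    (h : ¬ (p u < q ↔ p v < q)) : ∃ k, u ≤ k ∧ k < v ∧ Btw (p k) q (p (k + 1)) := by
  by_contra hcon
  push Not at hcon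
  apply h
  clear h
  induction v, huv using Nat.le_induction with
  | base => rfl
  | succ v hv ih =>
    have h1 := ih (fun k h1 h2 => hne k h1 (by omega)) (fun k h1 h2 => hcon k h1 (by omega))
    have h2 := hcon v hv (by omega)
    have h3 := hne v hv (by omega)
    have h4 := hne (v + 1) (by omega) (by omega)
    unfold Btw at h2
    omega

theorem one_le_over (p : ℕ → ℤ) (q : ℤ) (u v : ℕ) (huv : u ≤ v)
    (hne : ∀ k, u ≤ k → k ≤ v → p k ≠ q)
    (h : ¬ (p u < q ↔ p v < q)) : 1 ≤ ovr p u v q := by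
  obtain ⟨k, h1, h2, h3⟩ := ex_cross p q u v huv hne h
  have := Finset.single_le_sum (f := fun k => if Btw (p k) q (p (k + 1)) then 1 else 0)
    (fun i _ => Nat.zero_le _) (Finset.mem_Ico.2 ⟨h1, h2⟩)
  rw [if_pos h3] at this
  exact this

theorem over_split (p : ℕ → ℤ) (q : ℤ) {u w v : ℕ} (h1 : u ≤ w) (h2 : w ≤ v) :
    ovr p u v q = ovr p u w q + ovr p w v q := by
  unfold ovr
  exact (Finset.sum_Ico_consecutive _ h1 h2).symm

theorem over_head (p : ℕ → ℤ) (q : ℤ) {u v : ℕ} (h1 : u < v) :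
    ovr p u v q = (if Btw (p u) q (p (u + 1)) then 1 else 0) + ovr p (u + 1) v q := by
  unfold ovr
  exact Finset.sum_eq_sum_Ico_succ_bot h1 _

/-! ### parity -/

theorem sum_pairs (g : ℕ → ZMod 2) (u t : ℕ) (h : ∀ s < t, g (u + 2 * s) = g (u + 2 * s + 1)) :
    ∑ k ∈ Finset.Ico u (u + 2 * t), g k = 0 := by
  induction t with
  | zero => simp
  | succ t ih =>
    have e : u + 2 * (t + 1) = u + 2 * t + 1 + 1 := by ring
    rw [e, Finset.sum_Ico_succ_top (by omega), Finset.sum_Ico_succ_top (by omega),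
      ih fun s hs => h s (by omega), h t (by omega), zero_add]
    exact CharTwo.add_self_eq_zero _

theorem sum_ends (g : ℕ → ZMod 2) (u t : ℕ)
    (h : ∀ s < t, g (u + 2 * s + 1) = g (u + 2 * s + 2)) :
    ∑ k ∈ Finset.Ico u (u + 2 * t + 2), g k = g u + g (u + 2 * t + 1) := by
  rw [Finset.sum_Ico_succ_top (by omega), Finset.sum_eq_sum_Ico_succ_bot (by omega)]
  have := sum_pairs g (u + 1) t (fun s hs => by
    have e := h s hs
    have e1 : u + 1 + 2 * s = u + 2 * s + 1 := by ring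
    rw [e1]
    exact e)
  have e2 : u + 1 + 2 * t = u + 2 * t + 1 := by ring
  rw [e2] at this
  rw [this, add_zero]

/-- parity of the number of points of the block `u..v` to the left of the position `q` -/
def lpar (p : ℕ → ℤ) (u v : ℕ) (q : ℤ) : ZMod 2 :=
  ∑ k ∈ Finset.Ico u (v + 1), if p k < q then 1 else 0

theorem par_step (p : ℕ → ℤ) (u v x : ℕ) (hv : v % 2 ≠ u % 2) (huv : u ≤ v)
    (hx : ∀ k, u ≤ k → k ≤ v → p k ≠ p x ∧ p k ≠ p (x + 1))
    (h1 : x % 2 = u % 2 → ∀ k, u ≤ k → k < v → k % 2 = u % 2 →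
      (Btw (p x) (p k) (p (x + 1)) ↔ Btw (p x) (p (k + 1)) (p (x + 1))))
    (h2 : x % 2 ≠ u % 2 → (∀ k, u ≤ k → k < v → k % 2 ≠ u % 2 →
      (Btw (p x) (p k) (p (x + 1)) ↔ Btw (p x) (p (k + 1)) (p (x + 1)))) ∧
      (Btw (p x) (p u) (p (x + 1)) ↔ Btw (p x) (p v) (p (x + 1)))) :
    lpar p u v (p x) = lpar p u v (p (x + 1)) := by
  obtain ⟨t, rfl⟩ : ∃ t, v = u + 2 * t + 1 := ⟨(v - u) / 2, by omega⟩
  have key : ∑ k ∈ Finset.Ico u (u + 2 * t + 2),
      (if Btw (p x) (p k) (p (x + 1)) then (1 : ZMod 2) else 0) = 0 := by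
    by_cases hp : x % 2 = u % 2
    · have := sum_pairs (fun k => if Btw (p x) (p k) (p (x + 1)) then (1 : ZMod 2) else 0) u (t + 1)
        (fun s hs => by
          have := h1 hp (u + 2 * s) (by omega) (by omega) (by omega)
          exact if_congr this rfl rfl)
      have e : u + 2 * (t + 1) = u + 2 * t + 2 := by ring
      rw [e] at this
      exact this
    · obtain ⟨h3, h4⟩ := h2 hp
      have := sum_ends (fun k => if Btw (p x) (p k) (p (x + 1)) then (1 : ZMod 2) else 0) u t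
        (fun s hs => by
          have := h3 (u + 2 * s + 1) (by omega) (by omega) (by omega)
          exact if_congr this rfl rfl)
      rw [this, if_congr h4 rfl rfl]
      exact CharTwo.add_self_eq_zero _
  have e : lpar p u (u + 2 * t + 1) (p x) + lpar p u (u + 2 * t + 1) (p (x + 1)) = 0 := by
    unfold lpar
    rw [← Finset.sum_add_distrib]
    refine Eq.trans (Finset.sum_congr rfl fun k hk => ?_) key
    rw [Finset.mem_Ico] at hk
    obtain ⟨h5, h6⟩ := hx k hk.1 (by omega)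
    by_cases c1 : p k < p x <;> by_cases c2 : p k < p (x + 1)
    · rw [if_pos c1, if_pos c2, if_neg (by unfold Btw; omega)]
      exact CharTwo.add_self_eq_zero _
    · rw [if_pos c1, if_neg c2, if_pos (by unfold Btw; omega), add_zero]
    · rw [if_neg c1, if_pos c2, if_pos (by unfold Btw; omega), zero_add]
    · rw [if_neg c1, if_neg c2, if_neg (by unfold Btw; omega), zero_add]
  exact CharTwo.add_eq_zero.1 e

theorem lpar_ends (p : ℕ → ℤ) (u v : ℕ) (q : ℤ) (hv : v % 2 ≠ u % 2) (huv : u ≤ v)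
    (h : ∀ k, u ≤ k → k < v → k % 2 ≠ u % 2 → (p k < q ↔ p (k + 1) < q)) :
    lpar p u v q = (if p u < q then 1 else 0) + (if p v < q then 1 else 0) := by
  obtain ⟨t, rfl⟩ : ∃ t, v = u + 2 * t + 1 := ⟨(v - u) / 2, by omega⟩
  exact sum_ends (fun k => if p k < q then (1 : ZMod 2) else 0) u t (fun s hs =>
    if_congr (h (u + 2 * s + 1) (by omega) (by omega) (by omega)) rfl rfl)

theorem lpar_all (p : ℕ → ℤ) (u v : ℕ) (q : ℤ) (hv : v % 2 ≠ u % 2) (huv : u ≤ v)
    (h : ∀ k, u ≤ k → k ≤ v → p k < q) : lpar p u v q = 0 := by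
  rw [lpar_ends p u v q hv huv (fun k h1 h2 _ =>
    ⟨fun _ => h (k + 1) (by omega) (by omega), fun _ => h k h1 (by omega)⟩),
    if_pos (h u le_rfl huv), if_pos (h v huv le_rfl)]
  exact CharTwo.add_self_eq_zero _

end Pool.Agent.H586R2.Stamp
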