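import Pool.Agent.H586R2.Stamp.Core

/-!
# Putting two blocks next to each other
-/

namespace Pool.Agent.H586R2.Stamp

variable {n : ℕ} {d : ℕ → Bool} {i j m : ℕ} {p : ℕ → ℤ}

theorem ovr_zero_left (q : ℤ) (u v : ℕ) (h : ∀ k, u ≤ k → k ≤ v → q < p k) :
    ovr p u v q = 0 := by
  unfold ovr
  refine Finset.sum_eq_zero fun k hk => ?_
  rw [Finset.mem_Ico] at hk
  have h1 := h k hk.1 (by omega)
  have h2 := h (k + 1) (by omega) (by omega)
  rw [if_neg]
  unfold Btw
  omega

theorem ovr_zero_right (q : ℤ) (u v : ℕ) (h : ∀ k, u ≤ k → k ≤ v → p k < q) :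
    ovr p u v q = 0 := by
  unfold ovr
  refine Finset.sum_eq_zero fun k hk => ?_
  rw [Finset.mem_Ico] at hk
  have h1 := h k hk.1 (by omega)
  have h2 := h (k + 1) (by omega) (by omega)
  rw [if_neg]
  unfold Btw
  omega

theorem GF.merge (hA : GF n d i m p) (hB : GF n d (m + 1) j p) (him : i ≤ m) (hmj : m < j)
    (hjn : j ≤ n) (hd : d m = true)
    (hAB : ∀ x y, i ≤ x → x ≤ m → m + 1 ≤ y → y ≤ j → p x < p y)
    (hL : i ≠ 0 → m % 2 = i % 2)
    (hR : j ≠ n → j % 2 = m % 2 → p (m + 1) < p j) :
    GF n d i j p ∧ cost n d i j p = cost n d i m p + cost n d (m + 1) j p +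
      (if i ≠ 0 ∧ d (i - 1) = false then j - m else 0) +
      (if j ≠ n ∧ d j = false then m + 1 - i else 0) := by
  constructor
  · refine ⟨?_, ?_, ?_, ?_, ?_⟩
    · intro x y h1 h2 h3 h4 h5
      rcases le_or_gt x m with hx | hx <;> rcases le_or_gt y m with hy | hy
      · exact hA.inj x y h1 hx h3 hy h5
      · have := hAB x y h1 hx hy h4
        omega
      · have := hAB y x h3 hy hx h2
        omega
      · exact hB.inj x y hx h2 hy h4 h5
    · intro k h1 h2
      rcases lt_trichotomy k m with hk | hk | hk
      · exact hA.dir k h1 hk
      · subst hk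
        exact iff_of_true hd (hAB k (k + 1) h1 le_rfl le_rfl (by omega))
      · exact hB.dir k hk h2
    · intro k l h1 h2 h3 h4 h5 h6
      rcases lt_trichotomy k m with hk | hk | hk
      · rcases lt_trichotomy l m with hl | hl | hl
        · exact hA.nc k l h1 hk h3 hl h5 h6
        · subst hl
          have e1 := hA.expR (by omega) k h1 hk h6
          have e2 := hAB k (l + 1) h1 (by omega) le_rfl (by omega)
          have e3 := hAB (k + 1) (l + 1) (by omega) (by omega) le_rfl (by omega)
          refine iff_of_false e1 ?_
          unfold Btw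
          omega
        · have e1 := hAB k l h1 (by omega) hl (by omega)
          have e2 := hAB (k + 1) l (by omega) (by omega) hl (by omega)
          have e3 := hAB k (l + 1) h1 (by omega) (by omega) (by omega)
          have e4 := hAB (k + 1) (l + 1) (by omega) (by omega) (by omega) (by omega)
          unfold Btw
          omega
      · subst hk
        rcases lt_trichotomy l k with hl | hl | hl
        · have e1 := hA.expR (by omega) l h3 hl h6.symm
          have e2 := hAB l (k + 1) h3 (by omega) le_rfl (by omega)
          have e3 := hAB (l + 1) (k + 1) (by omega) (by omega) le_rfl (by omega)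
          have e4 : p k ≠ p l := fun e => h5 (hA.inj k l h1 le_rfl h3 hl.le e)
          have e5 : p k ≠ p (l + 1) := fun e => by
            have := hA.inj k (l + 1) h1 le_rfl (by omega) (by omega) e
            omega
          unfold Btw at e1 ⊢
          omega
        · exact absurd hl.symm h5
        · have e1 := hB.expL (by omega) l hl h4 (by omega)
          have e2 := hAB k l h1 le_rfl hl (by omega)
          have e3 := hAB k (l + 1) h1 le_rfl (by omega) (by omega)
          have e4 : p (k + 1) ≠ p l := fun e => by
            have := hB.inj (k + 1) l le_rfl (by omega) hl (by omega) e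
            omega
          have e5 : p (k + 1) ≠ p (l + 1) := fun e => by
            have := hB.inj (k + 1) (l + 1) le_rfl (by omega) (by omega) (by omega) e
            omega
          unfold Btw at e1 ⊢
          omega
      · rcases lt_trichotomy l m with hl | hl | hl
        · have e1 := hAB l k h3 (by omega) hk (by omega)
          have e2 := hAB (l + 1) k (by omega) (by omega) hk (by omega)
          have e3 := hAB l (k + 1) h3 (by omega) (by omega) (by omega)
          have e4 := hAB (l + 1) (k + 1) (by omega) (by omega) (by omega) (by omega)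
          unfold Btw
          omega
        · subst hl
          have e1 := hB.expL (by omega) k hk h2 (by omega)
          have e2 := hAB l k h3 le_rfl hk (by omega)
          have e3 := hAB l (k + 1) h3 le_rfl (by omega) (by omega)
          refine iff_of_false ?_ e1
          unfold Btw
          omega
        · exact hB.nc k l hk h2 hl h4 h5 h6
    · intro hi l h1 h2 h3
      rcases lt_trichotomy l m with hl | hl | hl
      · exact hA.expL hi l h1 hl h3
      · subst hl
        exact absurd (hL hi) h3
      · have e1 := hAB i l le_rfl him hl (by omega)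
        have e2 := hAB i (l + 1) le_rfl him (by omega) (by omega)
        unfold Btw
        omega
    · intro hj l h1 h2 h3
      rcases lt_trichotomy l m with hl | hl | hl
      · have e1 := hAB l j h1 (by omega) hmj le_rfl
        have e2 := hAB (l + 1) j (by omega) (by omega) hmj le_rfl
        unfold Btw
        omega
      · subst hl
        have e1 := hR hj h3.symm
        have e2 := hAB l j h1 le_rfl hmj le_rfl
        unfold Btw
        omega
      · exact hB.expR hj l hl h2 h3
  · have hw : ∀ x, ovr p i j (p x) = ovr p i m (p x) +
        (if Btw (p m) (p x) (p (m + 1)) then 1 else 0) + ovr p (m + 1) j (p x) := fun x => by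
      rw [over_split p (p x) him (show m ≤ j by omega), over_head p (p x) (show m < j by omega),
        add_assoc]
    have hmn : m ≠ n := by omega
    have hA' : ∀ x ∈ Finset.Ico i (m + 1), ovr p i j (p x) + rayL d i p (p x) +
        rayR n d j p (p x) = ovr p i m (p x) + rayL d i p (p x) + rayR n d m p (p x) +
        (if j ≠ n ∧ d j = false then 1 else 0) := by
      intro x hx
      rw [Finset.mem_Ico] at hx
      rw [hw x, ovr_zero_left (p x) (m + 1) j
        (fun k h1 h2 => hAB x k hx.1 (by omega) h1 h2)]
      have c1 := hAB x (m + 1) hx.1 (by omega) le_rfl hmj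
      have c2 := hAB x j hx.1 (by omega) hmj le_rfl
      have e1 : (if Btw (p m) (p x) (p (m + 1)) then 1 else 0) = rayR n d m p (p x) := by
        unfold rayR
        refine if_congr ?_ rfl rfl
        rw [hd]
        have c3 := hAB m (m + 1) him le_rfl le_rfl hmj
        unfold Btw
        simp only [ne_eq, hmn, not_false_eq_true, true_and, Bool.true_eq_false, false_and, or_false]
        omega
      have e2 : rayR n d j p (p x) = (if j ≠ n ∧ d j = false then 1 else 0) := by
        unfold rayR
        refine if_congr ?_ rfl rfl
        have : ¬ p j < p x := by omega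
        simp [c2, this]
      rw [e1, e2]
      omega
    have hB' : ∀ x ∈ Finset.Ico (m + 1) (j + 1), ovr p i j (p x) + rayL d i p (p x) +
        rayR n d j p (p x) = ovr p (m + 1) j (p x) + rayL d (m + 1) p (p x) + rayR n d j p (p x) +
        (if i ≠ 0 ∧ d (i - 1) = false then 1 else 0) := by
      intro x hx
      rw [Finset.mem_Ico] at hx
      rw [hw x, ovr_zero_right (p x) i m
        (fun k h1 h2 => hAB k x h1 h2 (by omega) (by omega))]
      have c1 := hAB m x him le_rfl (by omega) (by omega)
      have c2 := hAB i x le_rfl him (by omega) (by omega)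
      have e1 : (if Btw (p m) (p x) (p (m + 1)) then 1 else 0) = rayL d (m + 1) p (p x) := by
        unfold rayL
        refine if_congr ?_ rfl rfl
        rw [Nat.add_sub_cancel, hd]
        have c3 := hAB m (m + 1) him le_rfl le_rfl hmj
        have c4 : m + 1 ≠ 0 := by omega
        unfold Btw
        simp only [ne_eq, c4, not_false_eq_true, true_and, Bool.true_eq_false, false_and, or_false]
        omega
      have e2 : rayL d i p (p x) = (if i ≠ 0 ∧ d (i - 1) = false then 1 else 0) := by
        unfold rayL
        refine if_congr ?_ rfl rfl
        have : ¬ p x < p i := by omega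
        simp [c2, this]
      rw [e1, e2]
      omega
    have hs := Finset.sum_Ico_consecutive
      (fun x => ovr p i j (p x) + rayL d i p (p x) + rayR n d j p (p x))
      (show i ≤ m + 1 by omega) (show m + 1 ≤ j + 1 by omega)
    have e1 : (m + 1 - i) • (if j ≠ n ∧ d j = false then 1 else 0) =
        (if j ≠ n ∧ d j = false then m + 1 - i else 0) := by
      split_ifs <;> simp
    have e2 : (j + 1 - (m + 1)) • (if i ≠ 0 ∧ d (i - 1) = false then 1 else 0) =
        (if i ≠ 0 ∧ d (i - 1) = false then j - m else 0) := by
      split_ifs <;> simp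
    unfold cost
    rw [← hs, Finset.sum_congr rfl hA', Finset.sum_congr rfl hB', Finset.sum_add_distrib,
      Finset.sum_add_distrib (s := Finset.Ico (m + 1) (j + 1)), Finset.sum_const, Finset.sum_const,
      Nat.card_Ico, Nat.card_Ico, e1, e2]
    omega

/-- Both directions. -/
theorem GF.merge' (hA : GF n d i m p) (hB : GF n d (m + 1) j p) (him : i ≤ m) (hmj : m < j)
    (hjn : j ≤ n)
    (hAB : ∀ x y, i ≤ x → x ≤ m → m + 1 ≤ y → y ≤ j →
      if d m = true then p x < p y else p y < p x)
    (hL : i ≠ 0 → m % 2 = i % 2)
    (hR : j ≠ n → j % 2 = m % 2 → (d m = true ↔ p (m + 1) < p j)) :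
    GF n d i j p ∧ cost n d i j p = cost n d i m p + cost n d (m + 1) j p +
      (if i ≠ 0 ∧ d (i - 1) ≠ d m then j - m else 0) +
      (if j ≠ n ∧ d j ≠ d m then m + 1 - i else 0) := by
  cases hd : d m
  · rw [hd] at hAB hR
    have := GF.merge hA.flip hB.flip him hmj hjn (by simp [hd])
      (fun x y h1 h2 h3 h4 => by
        have := hAB x y h1 h2 h3 h4
        simp only [Bool.false_eq_true, if_false] at this
        simpa using this) hL
      (fun h1 h2 => by
        have := hR h1 h2
        have e : p (m + 1) ≠ p j := fun e => by
          have := hB.inj (m + 1) j le_rfl hmj hmj le_rfl e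
          omega
        simp only [Bool.false_eq_true, false_iff, not_lt] at this
        simp only [neg_lt_neg_iff]
        omega)
    rw [cost_flip, cost_flip, cost_flip] at this
    refine ⟨?_, ?_⟩
    · have := this.1.flip
      simpa using this
    · simpa using this.2
  · rw [hd] at hAB hR
    have := GF.merge hA hB him hmj hjn hd
      (fun x y h1 h2 h3 h4 => by simpa using hAB x y h1 h2 h3 h4) hL
      (fun h1 h2 => by simpa using hR h1 h2)
    refine ⟨this.1, ?_⟩
    simpa using this.2

end Pool.Agent.H586R2.Stamp
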