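import Pool.Agent.H586R2.Stamp.Split
import Pool.Agent.H586R2.Stamp.Merge

/-!
# The dynamic programme
-/

namespace Pool.Agent.H586R2.Stamp

variable {n : ℕ} {d : ℕ → Bool} {i j m : ℕ} {p q : ℕ → ℤ}

/-! ### only the order matters -/

theorem Btw_congr {a x b a' x' b' : ℤ} (h1 : a < x ↔ a' < x') (h2 : x < b ↔ x' < b')
    (h3 : b < x ↔ b' < x') (h4 : x < a ↔ x' < a') : Btw a x b ↔ Btw a' x' b' := by
  unfold Btw
  rw [h1, h2, h3, h4]

theorem GF.congr (h : GF n d i j p)
    (hpq : ∀ x y, i ≤ x → x ≤ j → i ≤ y → y ≤ j → (p x < p y ↔ q x < q y)) : GF n d i j q := by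
  have hB : ∀ a x b, i ≤ a → a ≤ j → i ≤ x → x ≤ j → i ≤ b → b ≤ j →
      (Btw (p a) (p x) (p b) ↔ Btw (q a) (q x) (q b)) := fun a x b h1 h2 h3 h4 h5 h6 =>
    Btw_congr (hpq a x h1 h2 h3 h4) (hpq x b h3 h4 h5 h6) (hpq b x h5 h6 h3 h4)
      (hpq x a h3 h4 h1 h2)
  refine ⟨?_, ?_, ?_, ?_, ?_⟩
  · intro x y h1 h2 h3 h4 h5
    apply h.inj x y h1 h2 h3 h4
    have e1 := hpq x y h1 h2 h3 h4
    have e2 := hpq y x h3 h4 h1 h2
    omega
  · intro k h1 h2
    rw [h.dir k h1 h2, hpq k (k + 1) h1 h2.le (by omega) h2]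
  · intro k l h1 h2 h3 h4 h5 h6
    rw [← hB k l (k + 1) h1 h2.le h3 h4.le (by omega) h2,
      ← hB k (l + 1) (k + 1) h1 h2.le (by omega) h4 (by omega) h2]
    exact h.nc k l h1 h2 h3 h4 h5 h6
  · intro hi l h1 h2 h3
    rw [← hB l i (l + 1) h1 h2.le le_rfl (by omega) (by omega) h2]
    exact h.expL hi l h1 h2 h3
  · intro hj l h1 h2 h3
    rw [← hB l j (l + 1) h1 h2.le (by omega) le_rfl (by omega) h2]
    exact h.expR hj l h1 h2 h3

theorem cost_congr (hij : i ≤ j)
    (hpq : ∀ x y, i ≤ x → x ≤ j → i ≤ y → y ≤ j → (p x < p y ↔ q x < q y)) :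
    cost n d i j p = cost n d i j q := by
  unfold cost
  refine Finset.sum_congr rfl fun x hx => ?_
  rw [Finset.mem_Ico] at hx
  have e1 : ovr p i j (p x) = ovr q i j (q x) := by
    unfold ovr
    refine Finset.sum_congr rfl fun k hk => ?_
    rw [Finset.mem_Ico] at hk
    exact if_congr (Btw_congr (hpq k x (by omega) (by omega) (by omega) (by omega))
      (hpq x (k + 1) (by omega) (by omega) (by omega) (by omega))
      (hpq (k + 1) x (by omega) (by omega) (by omega) (by omega))
      (hpq x k (by omega) (by omega) (by omega) (by omega))) rfl rfl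
  have e2 : rayL d i p (p x) = rayL d i q (q x) := by
    unfold rayL
    refine if_congr ?_ rfl rfl
    rw [hpq x i (by omega) (by omega) (by omega) (by omega),
      hpq i x (by omega) (by omega) (by omega) (by omega)]
  have e3 : rayR n d j p (p x) = rayR n d j q (q x) := by
    unfold rayR
    refine if_congr ?_ rfl rfl
    rw [hpq x j (by omega) (by omega) (by omega) (by omega),
      hpq j x (by omega) (by omega) (by omega) (by omega)]
  rw [e1, e2, e3]

/-! ### candidates -/

/-- the position of `x` in the list `l` -/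
def pos (l : List ℕ) (x : ℕ) : ℤ := (l.idxOf x : ℤ)

/-- the list of the cheapest candidate -/
def best (l : List (ℕ × List ℕ)) : List (ℕ × List ℕ) :=
  ((l.filter (fun x => l.all (fun y => decide (x.1 ≤ y.1)))).head?).elim [] (fun x => [x])

theorem best_spec {l : List (ℕ × List ℕ)} {x : ℕ × List ℕ} (h : x ∈ best l) :
    x ∈ l ∧ ∀ y ∈ l, x.1 ≤ y.1 := by
  unfold best at h
  cases hh : (l.filter (fun x => l.all (fun y => decide (x.1 ≤ y.1)))).head? with
  | none => rw [hh] at h; simp at h
  | some z =>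
    rw [hh] at h
    simp only [Option.elim_some, List.mem_singleton] at h
    subst h
    have := List.mem_of_mem_head? (Option.mem_def.2 hh)
    rw [List.mem_filter] at this
    refine ⟨this.1, fun y hy => ?_⟩
    have h2 := List.all_eq_true.1 this.2 y hy
    simpa using h2

theorem best_exists {l : List (ℕ × List ℕ)} {y : ℕ × List ℕ} (hy : y ∈ l) :
    ∃ x ∈ best l, x.1 ≤ y.1 := by
  obtain ⟨x, hx, hmin⟩ := Finset.exists_min_image l.toFinset (fun z => z.1)
    ⟨y, List.mem_toFinset.2 hy⟩
  have hx' : x ∈ l.filter (fun x => l.all (fun y => decide (x.1 ≤ y.1))) := by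
    rw [List.mem_filter]
    refine ⟨List.mem_toFinset.1 hx, List.all_eq_true.2 fun z hz => ?_⟩
    simpa using hmin z (List.mem_toFinset.2 hz)
  cases hh : (l.filter (fun x => l.all (fun y => decide (x.1 ≤ y.1)))).head? with
  | none =>
    rw [List.head?_eq_none_iff] at hh
    rw [hh] at hx'
    simp at hx'
  | some z =>
    have hz : z ∈ best l := by
      unfold best
      rw [hh]
      simp
    exact ⟨z, hz, (best_spec hz).2 y hy⟩

theorem best_length (l : List (ℕ × List ℕ)) : (best l).length ≤ 1 := by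
  unfold best
  cases (l.filter (fun x => l.all (fun y => decide (x.1 ≤ y.1)))).head? <;> simp

/-- Soundness of a candidate. -/
def Snd (n : ℕ) (d : ℕ → Bool) (i j : ℕ) (o : Bool) (x : ℕ × List ℕ) : Prop :=
  x.2.Nodup ∧ (∀ y, y ∈ x.2 ↔ i ≤ y ∧ y ≤ j) ∧ GF n d i j (pos x.2) ∧
    cost n d i j (pos x.2) = x.1 ∧ (i < j → (o = true ↔ pos x.2 i < pos x.2 j))

theorem pos_append_left {l l' : List ℕ} {x : ℕ} (h : x ∈ l) : pos (l ++ l') x = pos l x := by
  unfold pos
  rw [List.idxOf_append_of_mem h]

theorem pos_append_right {l l' : List ℕ} {x : ℕ} (h : x ∉ l) :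
    pos (l ++ l') x = l.length + pos l' x := by
  unfold pos
  rw [List.idxOf_append_of_notMem h]
  push_cast
  ring

theorem pos_lt {l : List ℕ} {x : ℕ} (h : x ∈ l) : pos l x < l.length := by
  unfold pos
  exact_mod_cast List.idxOf_lt_length_iff.2 h

theorem pos_nonneg (l : List ℕ) (x : ℕ) : 0 ≤ pos l x := by
  unfold pos
  positivity

theorem Snd.merge {u v : ℕ × List ℕ} {oA oB : Bool} (hu : Snd n d i m oA u)
    (hv : Snd n d (m + 1) j oB v) (him : i ≤ m) (hmj : m < j) (hjn : j ≤ n)
    (hL : i ≠ 0 → m % 2 = i % 2) (hR : j ≠ n → j % 2 = m % 2 → oB = d m) :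
    Snd n d i j (d m) (u.1 + v.1 + (if i ≠ 0 ∧ d (i - 1) ≠ d m then j - m else 0) +
      (if j ≠ n ∧ d j ≠ d m then m + 1 - i else 0),
      if d m = true then u.2 ++ v.2 else v.2 ++ u.2) := by
  obtain ⟨u1, u2, u3, u4, u5⟩ := hu
  obtain ⟨v1, v2, v3, v4, v5⟩ := hv
  set l : List ℕ := if d m = true then u.2 ++ v.2 else v.2 ++ u.2 with hl
  have hmemA : ∀ x, i ≤ x → x ≤ m → x ∈ u.2 ∧ x ∉ v.2 := fun x h1 h2 =>
    ⟨(u2 x).2 ⟨h1, h2⟩, fun h => by have := (v2 x).1 h; omega⟩
  have hmemB : ∀ x, m + 1 ≤ x → x ≤ j → x ∈ v.2 ∧ x ∉ u.2 := fun x h1 h2 =>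
    ⟨(v2 x).2 ⟨h1, h2⟩, fun h => by have := (u2 x).1 h; omega⟩
  have hA : ∀ x y, i ≤ x → x ≤ m → i ≤ y → y ≤ m →
      (pos u.2 x < pos u.2 y ↔ pos l x < pos l y) := by
    intro x y h1 h2 h3 h4
    obtain ⟨a1, a2⟩ := hmemA x h1 h2
    obtain ⟨b1, b2⟩ := hmemA y h3 h4
    rw [hl]
    split_ifs
    · rw [pos_append_left a1, pos_append_left b1]
    · rw [pos_append_right a2, pos_append_right b2]
      omega
  have hB : ∀ x y, m + 1 ≤ x → x ≤ j → m + 1 ≤ y → y ≤ j →
      (pos v.2 x < pos v.2 y ↔ pos l x < pos l y) := by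
    intro x y h1 h2 h3 h4
    obtain ⟨a1, a2⟩ := hmemB x h1 h2
    obtain ⟨b1, b2⟩ := hmemB y h3 h4
    rw [hl]
    split_ifs
    · rw [pos_append_right a2, pos_append_right b2]
      omega
    · rw [pos_append_left a1, pos_append_left b1]
  have hAB : ∀ x y, i ≤ x → x ≤ m → m + 1 ≤ y → y ≤ j →
      if d m = true then pos l x < pos l y else pos l y < pos l x := by
    intro x y h1 h2 h3 h4
    obtain ⟨a1, a2⟩ := hmemA x h1 h2
    obtain ⟨b1, b2⟩ := hmemB y h3 h4
    rw [hl]
    split_ifs
    · rw [pos_append_left a1, pos_append_right b2]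
      have := pos_lt a1
      have := pos_nonneg v.2 y
      omega
    · rw [pos_append_left b1, pos_append_right a2]
      have := pos_lt b1
      have := pos_nonneg u.2 x
      omega
  obtain ⟨g1, g2⟩ := GF.merge' (u3.congr hA) (v3.congr hB) him hmj hjn hAB hL
    (fun h1 h2 => by
      rw [← hR h1 h2, v5 (by omega), hB (m + 1) j le_rfl hmj hmj le_rfl])
  refine ⟨?_, ?_, g1, ?_, ?_⟩
  · have hdis : u.2.Disjoint v.2 := fun x h1 h2 => by
      have := (u2 x).1 h1
      have := (v2 x).1 h2
      omega
    show l.Nodup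
    rw [hl]
    split_ifs
    · exact List.Nodup.append u1 v1 hdis
    · exact List.Nodup.append v1 u1 hdis.symm
  · intro y
    show y ∈ l ↔ _
    have : y ∈ l ↔ y ∈ u.2 ∨ y ∈ v.2 := by
      rw [hl]
      split_ifs
      · exact List.mem_append
      · rw [List.mem_append, or_comm]
    rw [this, u2, v2]
    omega
  · show cost n d i j (pos l) = _
    rw [g2, ← cost_congr him hA, ← cost_congr hmj hB, u4, v4]
  · intro _
    show d m = true ↔ pos l i < pos l j
    have := hAB i j le_rfl him hmj le_rfl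
    split_ifs at this with h1
    · exact iff_of_true h1 this
    · exact iff_of_false h1 (by omega)

/-! ### the tables -/

/-- table entry for the block starting at `i` of length `len + 1`, and direction `o` -/
def look (R : List (List (List (ℕ × List ℕ) × List (ℕ × List ℕ)))) (len i : ℕ) (o : Bool) :
    List (ℕ × List ℕ) :=
  if o = true then ((R.getD len []).getD i ([], [])).1 else ((R.getD len []).getD i ([], [])).2

/-- candidates for the block `i .. i + t` and direction `o` -/
def cands (n : ℕ) (d : ℕ → Bool) (R : List (List (List (ℕ × List ℕ) × List (ℕ × List ℕ))))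
    (t i : ℕ) (o : Bool) : List (ℕ × List ℕ) :=
  (List.range t).flatMap fun r =>
    if d (i + r) = o ∧ (i = 0 ∨ r % 2 = 0) then
      (look R r i true ++ look R r i false).flatMap fun u =>
        (if i + t ≠ n ∧ (t - r) % 2 = 0 then look R (t - 1 - r) (i + r + 1) o else
          look R (t - 1 - r) (i + r + 1) true ++ look R (t - 1 - r) (i + r + 1) false).map fun v =>
          (u.1 + v.1 + (if i ≠ 0 ∧ d (i - 1) ≠ o then t - r else 0) +
            (if i + t ≠ n ∧ d (i + t) ≠ o then r + 1 else 0),
            if o = true then u.2 ++ v.2 else v.2 ++ u.2)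
    else []

/-- the next row of the table -/
def newRow (n : ℕ) (d : ℕ → Bool) (R : List (List (List (ℕ × List ℕ) × List (ℕ × List ℕ))))
    (t : ℕ) : List (List (ℕ × List ℕ) × List (ℕ × List ℕ)) :=
  (List.range (n + 1 - t)).map fun i =>
    if t = 0 then ([(0, [i])], [(0, [i])]) else
      (best (cands n d R t i true), best (cands n d R t i false))

/-- the first `t` rows of the table -/
def rows (n : ℕ) (d : ℕ → Bool) (t : ℕ) :
    List (List (List (ℕ × List ℕ) × List (ℕ × List ℕ))) :=
  (List.range t).foldl (fun R t => R ++ [newRow n d R t]) []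

theorem rows_zero (n : ℕ) (d : ℕ → Bool) : rows n d 0 = [] := rfl

theorem rows_succ (n : ℕ) (d : ℕ → Bool) (t : ℕ) :
    rows n d (t + 1) = rows n d t ++ [newRow n d (rows n d t) t] := by
  unfold rows
  rw [List.range_succ, List.foldl_append]
  rfl

theorem rows_length (n : ℕ) (d : ℕ → Bool) (t : ℕ) : (rows n d t).length = t := by
  induction t with
  | zero => rfl
  | succ t ih => rw [rows_succ, List.length_append, ih]; rfl

theorem look_old {R : List (List (List (ℕ × List ℕ) × List (ℕ × List ℕ)))}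
    {r : List (List (ℕ × List ℕ) × List (ℕ × List ℕ))} {len : ℕ} (h : len < R.length) (i : ℕ)
    (o : Bool) : look (R ++ [r]) len i o = look R len i o := by
  unfold look
  rw [List.getD_append _ _ _ _ h]

theorem look_new {R : List (List (List (ℕ × List ℕ) × List (ℕ × List ℕ)))} {t i : ℕ}
    (h : R.length = t) (hi : i + t ≤ n) (o : Bool) :
    look (R ++ [newRow n d R t]) t i o =
      if t = 0 then [(0, [i])] else best (cands n d R t i o) := by
  unfold look
  rw [List.getD_append_right _ _ _ _ (by omega), h, Nat.sub_self]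
  have e : (newRow n d R t).getD i ([], []) = if t = 0 then ([(0, [i])], [(0, [i])]) else
      (best (cands n d R t i true), best (cands n d R t i false)) := by
    unfold newRow
    rw [List.getD_eq_getElem _ _ (by simp; omega)]
    simp
  simp only [List.getD_cons_zero, e]
  cases o <;> by_cases h0 : t = 0 <;> simp [h0]

/-- Optimality of a pair of entries. -/
def Opt (n : ℕ) (d : ℕ → Bool) (i j : ℕ) (E : Bool → List (ℕ × List ℕ)) : Prop :=
  ∀ p, GF n d i j p → ∃ o, ∃ x ∈ E o, x.1 ≤ cost n d i j p ∧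
    (i ≠ 0 → j ≠ n → j % 2 ≠ i % 2 → (o = true ↔ p i < p j))

/-- The entries for the block are sound and optimal. -/
def Good (n : ℕ) (d : ℕ → Bool) (i j : ℕ) (E : Bool → List (ℕ × List ℕ)) : Prop :=
  (∀ o, ∀ x ∈ E o, Snd n d i j o x) ∧ Opt n d i j E

theorem good_zero (i : ℕ) : Good n d i i (fun _ => [(0, [i])]) := by
  constructor
  · intro o x hx
    rw [List.mem_singleton] at hx
    subst hx
    refine ⟨by simp, fun y => by simp; omega, ⟨?_, ?_, ?_, ?_, ?_⟩, ?_, fun h => absurd h (lt_irrefl _)⟩
    · intro x y h1 h2 h3 h4 _; omega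
    · intro k h1 h2; omega
    · intro k l h1 h2; omega
    · intro _ l h1 h2; omega
    · intro _ l h1 h2; omega
    · unfold cost
      simp [ovr, rayL, rayR]
  · intro p _
    exact ⟨true, (0, [i]), by simp, Nat.zero_le _, fun _ _ h => absurd rfl h⟩

theorem good_succ {R : List (List (List (ℕ × List ℕ) × List (ℕ × List ℕ)))} {t : ℕ} (ht : 0 < t)
    (hR : ∀ len < t, ∀ i, i + len ≤ n → Good n d i (i + len) (look R len i)) {i : ℕ}
    (hi : i + t ≤ n) : Good n d i (i + t) (fun o => best (cands n d R t i o)) := by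
  constructor
  · intro o x hx
    have hx := (best_spec hx).1
    unfold cands at hx
    rw [List.mem_flatMap] at hx
    obtain ⟨r, hr, hx⟩ := hx
    rw [List.mem_range] at hr
    by_cases hc : d (i + r) = o ∧ (i = 0 ∨ r % 2 = 0)
    · rw [if_pos hc, List.mem_flatMap] at hx
      obtain ⟨u, hu, hx⟩ := hx
      rw [List.mem_map] at hx
      obtain ⟨v, hv, rfl⟩ := hx
      obtain ⟨hc1, hc2⟩ := hc
      have hA := hR r hr i (by omega)
      have hB := hR (t - 1 - r) (by omega) (i + r + 1) (by omega)
      have e1 : i + r + 1 + (t - 1 - r) = i + t := by omega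
      rw [e1] at hB
      obtain ⟨oA, hu⟩ : ∃ oA, Snd n d i (i + r) oA u := by
        rw [List.mem_append] at hu
        rcases hu with hu | hu
        · exact ⟨_, hA.1 _ u hu⟩
        · exact ⟨_, hA.1 _ u hu⟩
      obtain ⟨oB, hv, hoB⟩ : ∃ oB, Snd n d (i + r + 1) (i + t) oB v ∧
          (i + t ≠ n → (i + t) % 2 = (i + r) % 2 → oB = d (i + r)) := by
        split_ifs at hv with hc3
        · exact ⟨o, hB.1 _ v hv, fun _ _ => hc1.symm⟩
        · rw [List.mem_append] at hv
          have h0 : i + t ≠ n → (i + t) % 2 = (i + r) % 2 → False := fun h1 h2 =>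
            hc3 ⟨h1, by omega⟩
          rcases hv with hv | hv
          · exact ⟨_, hB.1 _ v hv, fun h1 h2 => (h0 h1 h2).elim⟩
          · exact ⟨_, hB.1 _ v hv, fun h1 h2 => (h0 h1 h2).elim⟩
      have := Snd.merge hu hv (by omega) (by omega) hi (fun h => by omega) hoB
      rw [hc1] at this
      have e2 : i + t - (i + r) = t - r := by omega
      have e3 : i + r + 1 - i = r + 1 := by omega
      rw [e2, e3] at this
      exact this
    · rw [if_neg hc] at hx
      simp at hx
  · intro p hp
    obtain ⟨m, h1, h2, h3, h4, h5, h6, h7, h8⟩ := hp.split (by omega)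
    obtain ⟨r, rfl⟩ : ∃ r, m = i + r := ⟨m - i, by omega⟩
    obtain ⟨oA, u, hu, hu1, hu2⟩ := (hR r (by omega) i (by omega)).2 p h4
    have hB := hR (t - 1 - r) (by omega) (i + r + 1) (by omega)
    have e1 : i + r + 1 + (t - 1 - r) = i + t := by omega
    rw [e1] at hB
    obtain ⟨oB, v, hv, hv1, hv2⟩ := hB.2 p h5
    have hmem : (u.1 + v.1 + (if i ≠ 0 ∧ d (i - 1) ≠ d (i + r) then t - r else 0) +
            (if i + t ≠ n ∧ d (i + t) ≠ d (i + r) then r + 1 else 0),
            if d (i + r) = true then u.2 ++ v.2 else v.2 ++ u.2) ∈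
        cands n d R t i (d (i + r)) := by
      unfold cands
      rw [List.mem_flatMap]
      refine ⟨r, List.mem_range.2 (by omega), ?_⟩
      rw [if_pos ⟨rfl, by omega⟩, List.mem_flatMap]
      refine ⟨u, ?_, ?_⟩
      · rw [List.mem_append]
        cases oA
        · exact Or.inr hu
        · exact Or.inl hu
      · rw [List.mem_map]
        refine ⟨v, ?_, rfl⟩
        split_ifs with hc
        · have e4 : (i + t) % 2 = (i + r) % 2 := by omega
          have e5 := h6 hc.1 e4
          have e6 := hv2 (by omega) hc.1 (by omega)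
          have e7 : oB = d (i + r) := by
            rw [Bool.eq_iff_iff, e6, e5]
          rw [← e7]
          exact hv
        · rw [List.mem_append]
          cases oB
          · exact Or.inr hv
          · exact Or.inl hv
    obtain ⟨x, hx, hx1⟩ := best_exists hmem
    refine ⟨d (i + r), x, hx, ?_, h7⟩
    have e2 : i + t - (i + r) = t - r := by omega
    have e3 : i + r + 1 - i = r + 1 := by omega
    rw [e2, e3] at h8
    simp only at hx1
    omega

theorem rows_good (n : ℕ) (d : ℕ → Bool) (t : ℕ) : ∀ len < t, ∀ i, i + len ≤ n →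
    Good n d i (i + len) (look (rows n d t) len i) := by
  induction t with
  | zero => intro len h; omega
  | succ t ih =>
    intro len hlen i hi
    rw [rows_succ]
    rcases Nat.lt_succ_iff_lt_or_eq.1 hlen with h | rfl
    · have e : look (rows n d t ++ [newRow n d (rows n d t) t]) len i =
          look (rows n d t) len i := by
        funext o
        exact look_old (by rw [rows_length]; exact h) i o
      rw [e]
      exact ih len h i hi
    · have e : look (rows n d len ++ [newRow n d (rows n d len) len]) len i = fun o =>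
          if len = 0 then [(0, [i])] else best (cands n d (rows n d len) len i o) := by
        funext o
        exact look_new (rows_length n d len) hi o
      rw [e]
      rcases Nat.eq_zero_or_pos len with h0 | h0
      · subst h0
        simp only [if_true]
        exact good_zero i
      · simp only [if_neg (by omega : ¬ len = 0)]
        exact good_succ h0 ih hi

/-- the optimal cost and order -/
def solve (n : ℕ) (d : ℕ → Bool) : List (ℕ × List ℕ) :=
  best (look (rows n d (n + 1)) n 0 true ++ look (rows n d (n + 1)) n 0 false)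

theorem solve_sound (x : ℕ × List ℕ) (h : x ∈ solve n d) : ∃ o, Snd n d 0 n o x := by
  have h1 := (best_spec h).1
  have hg := rows_good n d (n + 1) n (by omega) 0 (by omega)
  rw [zero_add] at hg
  rw [List.mem_append] at h1
  rcases h1 with h1 | h1
  · exact ⟨_, hg.1 _ x h1⟩
  · exact ⟨_, hg.1 _ x h1⟩

theorem solve_opt (p : ℕ → ℤ) (h : GF n d 0 n p) : ∃ x ∈ solve n d, x.1 ≤ cost n d 0 n p := by
  have hg := rows_good n d (n + 1) n (by omega) 0 (by omega)
  rw [zero_add] at hg
  obtain ⟨o, x, hx, hx1, -⟩ := hg.2 p h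
  have hx2 : x ∈ look (rows n d (n + 1)) n 0 true ++ look (rows n d (n + 1)) n 0 false := by
    rw [List.mem_append]
    cases o
    · exact Or.inr hx
    · exact Or.inl hx
  obtain ⟨y, hy, hy1⟩ := best_exists hx2
  exact ⟨y, hy, hy1.trans hx1⟩

end Pool.Agent.H586R2.Stamp
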