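import Pool.Agent.H586R2.Stamp.Poly

/-!
# Folded states of a paper strip and their total crease width
-/

namespace Pool.Agent.H586R2.Stamp

open Pool.Agent.NPC

/-- The height of the segment `i` in the stacking order `l` (listed from bottom to top). -/
def ht (l : List ℕ) (i : ℕ) : ℕ := l.idxOf i

/-- The interval of the stacking order spanned by crease `i`, joining segments `i - 1` and `i`. -/
def creaseIv (l : List ℕ) (i : ℕ) : Set ℕ := Set.uIcc (ht l (i - 1)) (ht l i)

/-- `l` is the stacking order (from bottom to top) of a folded state to unit length of a strip with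
`n` creases: it lists the segments `0, ..., n`, and the intervals of two creases lying at the same
end of the folded strip (that is, creases of the same parity) are nested or disjoint. -/
def IsFolded (n : ℕ) (l : List ℕ) : Prop :=
  l.Perm (List.range (n + 1)) ∧
    ∀ i j, 1 ≤ i → i < j → j ≤ n → i % 2 = j % 2 →
      creaseIv l i ⊆ creaseIv l j ∨ creaseIv l j ⊆ creaseIv l i ∨
        Disjoint (creaseIv l i) (creaseIv l j)

/-- The state `l` is consistent with the MV string `s` (`s[i - 1]` is `true` if crease `i` is a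
valley and `false` if it is a mountain): segment `i` is above segment `i - 1` exactly when crease
`i` is a valley and segment `i - 1` is face up (`i - 1` is even), or crease `i` is a mountain and
segment `i - 1` is face down. -/
def Consistent (s : List Bool) (l : List ℕ) : Prop :=
  ∀ i, 1 ≤ i → i ≤ s.length → (ht l (i - 1) < ht l i ↔
    (s.getD (i - 1) false = true ∧ Even (i - 1)) ∨ (s.getD (i - 1) false = false ∧ Odd (i - 1)))

/-- The width of crease `i`: the number of segments strictly between the segments `i - 1` and `i` in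
the stacking order. -/
noncomputable def width (n : ℕ) (l : List ℕ) (i : ℕ) : ℕ :=
  Set.ncard {x : ℕ | x ≤ n ∧ ((ht l (i - 1) < ht l x ∧ ht l x < ht l i) ∨
    (ht l i < ht l x ∧ ht l x < ht l (i - 1)))}

/-- The total crease width. -/
noncomputable def totalWidth (n : ℕ) (l : List ℕ) : ℕ := ∑ i ∈ Finset.Icc 1 n, width n l i

/-! ### translation -/

theorem dirOf_iff (s : List Bool) (k : ℕ) : dirOf s k = true ↔
    (s.getD k false = true ∧ Even k) ∨ (s.getD k false = false ∧ Odd k) := by
  unfold dirOf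
  rw [Nat.even_iff, Nat.odd_iff]
  cases s.getD k false
  · simp
  · simp

theorem mem_of_perm {n : ℕ} {l : List ℕ} (h : l.Perm (List.range (n + 1))) (x : ℕ) :
    x ∈ l ↔ x ≤ n := by
  rw [h.mem_iff, List.mem_range]
  omega

theorem ht_inj {l : List ℕ} {x y : ℕ} (hx : x ∈ l) (h : ht l x = ht l y) : x = y :=
  (List.idxOf_inj hx).1 h

theorem Btw_pos (l : List ℕ) (a x b : ℕ) : Btw (pos l a) (pos l x) (pos l b) ↔
    (ht l a < ht l x ∧ ht l x < ht l b) ∨ (ht l b < ht l x ∧ ht l x < ht l a) := by
  unfold Btw pos ht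
  simp only [Nat.cast_lt]

theorem uIcc_rel {a b c e : ℕ} (h1 : a ≠ c) (h2 : a ≠ e) (h3 : b ≠ c) (h4 : b ≠ e) (hab : a ≠ b)
    (hce : c ≠ e) :
    (Set.uIcc a b ⊆ Set.uIcc c e ∨ Set.uIcc c e ⊆ Set.uIcc a b ∨
      Disjoint (Set.uIcc a b) (Set.uIcc c e)) ↔
    (((a < c ∧ c < b) ∨ (b < c ∧ c < a)) ↔ ((a < e ∧ e < b) ∨ (b < e ∧ e < a))) := by
  rw [Set.uIcc_subset_uIcc_iff_le, Set.uIcc_subset_uIcc_iff_le, Set.disjoint_left]
  constructor
  · rintro (h | h | h)
    · omega
    · omega
    · have k1 := h (a := a) Set.left_mem_uIcc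
      have k2 := h (a := b) Set.right_mem_uIcc
      have k3 : c ∉ Set.uIcc a b := fun hc => h hc Set.left_mem_uIcc
      have k4 : e ∉ Set.uIcc a b := fun hc => h hc Set.right_mem_uIcc
      rw [Set.mem_uIcc] at k1 k2 k3 k4
      omega
  · intro h
    by_cases h5 : min c e ≤ min a b ∧ max a b ≤ max c e
    · exact Or.inl h5
    by_cases h6 : min a b ≤ min c e ∧ max c e ≤ max a b
    · exact Or.inr (Or.inl h6)
    refine Or.inr (Or.inr fun x hx hx' => ?_)
    rw [Set.mem_uIcc] at hx hx'
    omega

theorem GF_of_folded {s : List Bool} {l : List ℕ} (h1 : IsFolded s.length l)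
    (h2 : Consistent s l) : GF s.length (dirOf s) 0 s.length (pos l) := by
  obtain ⟨hp, hnc⟩ := h1
  have hmem := mem_of_perm hp
  have hne : ∀ x y, x ≤ s.length → x ≠ y → ht l x ≠ ht l y := fun x y hx hxy e =>
    hxy (ht_inj ((hmem x).2 hx) e)
  refine ⟨?_, ?_, ?_, fun h => absurd rfl h, fun h => absurd rfl h⟩
  · intro x y _ hx _ _ e
    unfold pos at e
    exact ht_inj ((hmem x).2 hx) (by exact_mod_cast e)
  · intro k _ hk
    have := h2 (k + 1) (by omega) (by omega)
    rw [Nat.add_sub_cancel, ← dirOf_iff] at this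
    rw [← this]
    unfold pos ht
    rw [Nat.cast_lt]
  · have key : ∀ k l', k < l' → l' < s.length → k % 2 = l' % 2 →
        (creaseIv l (k + 1) ⊆ creaseIv l (l' + 1) ∨ creaseIv l (l' + 1) ⊆ creaseIv l (k + 1) ∨
        Disjoint (creaseIv l (k + 1)) (creaseIv l (l' + 1))) := fun k l' e1 e2 e3 =>
      hnc (k + 1) (l' + 1) (by omega) (by omega) (by omega) (by omega)
    intro k l' _ h3 _ h4 h5 h6
    rw [Btw_pos, Btw_pos]
    rcases Nat.lt_or_gt_of_ne h5 with h7 | h7
    · exact (uIcc_rel (hne _ _ (by omega) (by omega)) (hne _ _ (by omega) (by omega))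
        (hne _ _ (by omega) (by omega)) (hne _ _ (by omega) (by omega))
        (hne _ _ (by omega) (by omega)) (hne _ _ (by omega) (by omega))).1 (key k l' h7 h4 h6)
    · have := key l' k h7 h3 h6.symm
      refine (uIcc_rel (hne _ _ (by omega) (by omega)) (hne _ _ (by omega) (by omega))
        (hne _ _ (by omega) (by omega)) (hne _ _ (by omega) (by omega))
        (hne _ _ (by omega) (by omega)) (hne _ _ (by omega) (by omega))).1 ?_
      rcases this with h | h | h
      · exact Or.inr (Or.inl h)
      · exact Or.inl h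
      · exact Or.inr (Or.inr h.symm)

theorem folded_of_Snd {s : List Bool} {o : Bool} {x : ℕ × List ℕ}
    (h : Snd s.length (dirOf s) 0 s.length o x) : IsFolded s.length x.2 ∧ Consistent s x.2 := by
  obtain ⟨h1, h2, h3, -, -⟩ := h
  have hp : x.2.Perm (List.range (s.length + 1)) := by
    rw [List.perm_ext_iff_of_nodup h1 List.nodup_range]
    intro a
    rw [h2, List.mem_range]
    omega
  have hmem := mem_of_perm hp
  have hne : ∀ a b, a ≤ s.length → a ≠ b → ht x.2 a ≠ ht x.2 b := fun a b ha hab e =>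
    hab (ht_inj ((hmem a).2 ha) e)
  refine ⟨⟨hp, ?_⟩, ?_⟩
  · intro i j hi hij hj hpar
    obtain ⟨k, rfl⟩ : ∃ k, i = k + 1 := ⟨i - 1, by omega⟩
    obtain ⟨l, rfl⟩ : ∃ l, j = l + 1 := ⟨j - 1, by omega⟩
    have := h3.nc k l (by omega) (by omega) (by omega) (by omega) (by omega) (by omega)
    rw [Btw_pos, Btw_pos] at this
    exact (uIcc_rel (hne _ _ (by omega) (by omega)) (hne _ _ (by omega) (by omega))
        (hne _ _ (by omega) (by omega)) (hne _ _ (by omega) (by omega))
        (hne _ _ (by omega) (by omega)) (hne _ _ (by omega) (by omega))).2 this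
  · intro i hi hi'
    obtain ⟨k, rfl⟩ : ∃ k, i = k + 1 := ⟨i - 1, by omega⟩
    rw [Nat.add_sub_cancel, ← dirOf_iff, h3.dir k (by omega) (by omega)]
    unfold pos ht
    rw [Nat.cast_lt]

theorem cost_eq_total (n : ℕ) (d : ℕ → Bool) (l : List ℕ) :
    cost n d 0 n (pos l) = totalWidth n l := by
  unfold cost totalWidth
  have e1 : ∀ x ∈ Finset.Ico 0 (n + 1), ovr (pos l) 0 n (pos l x) + rayL d 0 (pos l) (pos l x) +
      rayR n d n (pos l) (pos l x) =
      ∑ k ∈ Finset.Ico 0 n, if Btw (pos l k) (pos l x) (pos l (k + 1)) then 1 else 0 := by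
    intro x _
    simp [ovr, rayL, rayR]
  rw [Finset.sum_congr rfl e1, Finset.sum_comm]
  have e2 : Finset.Icc 1 n = (Finset.Ico 0 n).image (fun k => k + 1) := by
    ext a
    simp only [Finset.mem_Icc, Finset.mem_image, Finset.mem_Ico]
    constructor
    · intro h
      exact ⟨a - 1, by omega, by omega⟩
    · rintro ⟨b, hb, rfl⟩
      omega
  rw [e2, Finset.sum_image (fun a _ b _ h => by simpa using h)]
  refine Finset.sum_congr rfl fun k _ => ?_
  unfold width
  rw [Nat.add_sub_cancel, ← Finset.card_filter]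
  rw [← Set.ncard_coe_finset]
  congr 1
  ext x
  simp only [Finset.coe_filter, Finset.mem_Ico, Set.mem_ofPred_eq, Btw_pos]
  constructor
  · rintro ⟨h1, h2⟩
    exact ⟨by omega, h2⟩
  · rintro ⟨h1, h2⟩
    exact ⟨by omega, h2⟩

/-- Some folded state exists. -/
theorem exists_GF (n : ℕ) (d : ℕ → Bool) (t : ℕ) (ht : t ≤ n) : ∃ p, GF n d (n - t) n p := by
  induction t with
  | zero =>
    exact ⟨fun _ => 0, ⟨fun x y _ _ _ _ _ => by omega, fun k _ _ => by omega,
      fun k l _ _ => by omega, fun _ l _ _ => by omega, fun _ l _ _ => by omega⟩⟩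
  | succ t ih =>
    obtain ⟨p, hp⟩ := ih (by omega)
    obtain ⟨i, hi⟩ : ∃ i, n - t = i + 1 := ⟨n - t - 1, by omega⟩
    have hi' : n - (t + 1) = i := by omega
    rw [hi'] at *
    rw [hi] at hp
    obtain ⟨a, ha, hmin⟩ := Finset.exists_min_image (Finset.Icc (i + 1) n) p ⟨n, by simp; omega⟩
    obtain ⟨b, hb, hmax⟩ := Finset.exists_max_image (Finset.Icc (i + 1) n) p ⟨n, by simp; omega⟩
    set c : ℤ := if d i = true then p a - 1 else p b + 1 with hc
    let q : ℕ → ℤ := fun x => if x = i then c else p x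
    have hq : ∀ x, i + 1 ≤ x → q x = p x := fun x hx => by
      simp only [q]
      rw [if_neg (by omega)]
    have hqi : q i = c := by simp [q]
    refine ⟨q, (GF.merge' (i := i) (m := i) (j := n) ?_ ?_ le_rfl (by omega) le_rfl ?_
      (fun _ => rfl) (fun h => absurd rfl h)).1⟩
    · exact ⟨fun x y _ _ _ _ _ => by omega, fun k _ _ => by omega,
        fun k l _ _ => by omega, fun _ l _ _ => by omega, fun _ l _ _ => by omega⟩
    · exact hp.congr fun x y h1 _ h2 _ => by rw [hq x h1, hq y h2]
    · intro x y h1 h2 h3 h4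
      have hx : x = i := by omega
      subst hx
      rw [hqi, hq y h3, hc]
      have e1 := hmin y (Finset.mem_Icc.2 ⟨h3, h4⟩)
      have e2 := hmax y (Finset.mem_Icc.2 ⟨h3, h4⟩)
      split_ifs <;> omega

/-- The optimal state computed by the dynamic programme. -/
def answer (s : List Bool) : List ℕ := ((solve s.length (dirOf s)).map (fun x => x.2)).flatten

theorem solve_eq (s : List Bool) : ∃ x, solve s.length (dirOf s) = [x] := by
  obtain ⟨p, hp⟩ := exists_GF s.length (dirOf s) s.length le_rfl
  rw [Nat.sub_self] at hp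
  obtain ⟨x, hx, -⟩ := solve_opt p hp
  have hl : (solve s.length (dirOf s)).length ≤ 1 := best_length _
  cases h : solve s.length (dirOf s) with
  | nil => rw [h] at hx; simp at hx
  | cons y l =>
    rw [h] at hl
    cases l with
    | nil => exact ⟨y, rfl⟩
    | cons z l => simp at hl

theorem answer_spec (s : List Bool) : ∃ x, x ∈ solve s.length (dirOf s) ∧ answer s = x.2 ∧
    IsFolded s.length x.2 ∧ Consistent s x.2 ∧ totalWidth s.length x.2 = x.1 ∧
    ∀ l, IsFolded s.length l → Consistent s l → x.1 ≤ totalWidth s.length l := by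
  obtain ⟨x, hx⟩ := solve_eq s
  have hmem : x ∈ solve s.length (dirOf s) := by rw [hx]; simp
  obtain ⟨o, ho⟩ := solve_sound x hmem
  obtain ⟨h1, h2⟩ := folded_of_Snd ho
  refine ⟨x, hmem, by simp [answer, hx], h1, h2, ?_, fun l hl hl' => ?_⟩
  · rw [← cost_eq_total s.length (dirOf s)]
    exact ho.2.2.2.1
  · obtain ⟨y, hy, hy1⟩ := solve_opt (pos l) (GF_of_folded hl hl')
    rw [hx, List.mem_singleton] at hy
    rw [hy, cost_eq_total] at hy1
    exact hy1

theorem poly_answer : NPC.Poly answer := by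
  unfold answer
  have := poly_solve
  fun_prop

theorem decide_spec (s : List Bool) (k : ℕ) :
    (∃ l, IsFolded s.length l ∧ Consistent s l ∧ totalWidth s.length l < k) ↔
      (solve s.length (dirOf s)).any (fun x => decide (x.1 < k)) = true := by
  obtain ⟨x, h1, -, h3, h4, h5, h6⟩ := answer_spec s
  obtain ⟨y, hy⟩ := solve_eq s
  rw [hy, List.mem_singleton] at h1
  subst h1
  rw [hy]
  simp only [List.any_cons, List.any_nil, Bool.or_false, decide_eq_true_eq]
  constructor
  · rintro ⟨l, hl, hl', hk⟩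
    exact (h6 l hl hl').trans_lt hk
  · intro hk
    exact ⟨x.2, h3, h4, by rw [h5]; exact hk⟩

theorem poly_decide : NPC.Poly (fun a : List Bool × ℕ =>
    (solve a.1.length (dirOf a.1)).any (fun x => decide (x.1 < a.2))) := by
  have h1 : NPC.Poly (fun a : List Bool × ℕ => solve a.1.length (dirOf a.1)) :=
    NPC.Poly.comp (g := fun s : List Bool => solve s.length (dirOf s)) poly_solve
      (NPC.Poly.fst NPC.Poly.id)
  fun_prop

end Pool.Agent.H586R2.Stamp
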