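import Pool.Agent.H671R2.PolyAuto
import Pool.Agent.NPC.Dec
import Pool.Agent.H586R2.Stamp.DP

/-!
# The dynamic programme runs in polynomial time
-/

namespace Pool.Agent.H586R2.Stamp

open Pool.Agent.NPC

/-- Direction of arc `k` (joining the segments `k` and `k + 1`): upwards when crease `k + 1` is a
valley and segment `k` is face up, or crease `k + 1` is a mountain and segment `k` is face down. -/
def dirOf (s : List Bool) (k : ℕ) : Bool := xor (s.getD k false) (decide (k % 2 = 1))

/-- the type of the tables -/
abbrev Tab := List (List (List (ℕ × List ℕ) × List (ℕ × List ℕ)))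

variable {α : Type} [TEnc α]

theorem poly_dirOf {s : α → List Bool} {k : α → ℕ} (hs : Poly s) (hk : Poly k) :
    Poly (fun a => dirOf (s a) (k a)) := by
  unfold dirOf
  fun_prop

theorem poly_look {R : α → Tab} {len i : α → ℕ} {o : α → Bool} (hR : Poly R) (hlen : Poly len)
    (hi : Poly i) (ho : Poly o) : Poly (fun a => look (R a) (len a) (i a) (o a)) := by
  unfold look
  fun_prop

theorem poly_best {l : α → List (ℕ × List ℕ)} (hl : Poly l) : Poly (fun a => best (l a)) := by
  unfold best
  fun_prop

attribute [fun_prop] poly_dirOf poly_look poly_best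

theorem poly_rangeLen {β : Type} [TEnc β] {l : α → List β} (hl : Poly l) :
    Poly (fun a => List.range (l a).length) := Poly.range_length hl

attribute [fun_prop] poly_rangeLen

theorem poly_cands {s : α → List Bool} {R : α → Tab} {i : α → ℕ} {o : α → Bool} (hs : Poly s)
    (hR : Poly R) (hi : Poly i) (ho : Poly o) :
    Poly (fun a => cands (s a).length (dirOf (s a)) (R a) (R a).length (i a) (o a)) := by
  unfold cands
  fun_prop

attribute [fun_prop] poly_cands

theorem poly_rangeSub {s : α → List Bool} {R : α → Tab} (hs : Poly s) (hR : Poly R) :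
    Poly (fun a => List.range ((s a).length + 1 - (R a).length)) := by
  have h1 : UPoly (fun a => (s a).length + 1) := UPoly.add (UPoly.length hs) (UPoly.const 1)
  exact (UPoly.of_le (m := fun a => (s a).length + 1 - (R a).length) (by fun_prop) h1
    (fun a => Nat.sub_le _ _)).range

attribute [fun_prop] poly_rangeSub

theorem poly_newRow {s : α → List Bool} {R : α → Tab} (hs : Poly s) (hR : Poly R) :
    Poly (fun a => newRow (s a).length (dirOf (s a)) (R a) (R a).length) := by
  unfold newRow
  fun_prop

attribute [fun_prop] poly_newRow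

/-- the rows, computed without reference to the index -/
theorem rows_eq (s : List Bool) (t : ℕ) (l : List ℕ) (hl : l.length = t) :
    l.foldl (fun (R : Tab) (_ : ℕ) => R ++ [newRow s.length (dirOf s) R R.length]) [] =
      rows s.length (dirOf s) t := by
  induction t generalizing l with
  | zero =>
    rw [List.length_eq_zero_iff] at hl
    subst hl
    rfl
  | succ t ih =>
    obtain ⟨l', a, rfl⟩ : ∃ l' a, l = l' ++ [a] := by
      rcases List.eq_nil_or_concat l with rfl | ⟨l', a, rfl⟩
      · simp at hl
      · exact ⟨l', a, by simp⟩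
    have h1 : l'.length = t := by simpa using hl
    rw [List.foldl_append, ih l' h1, rows_succ]
    simp only [List.foldl_cons, List.foldl_nil]
    rw [rows_length]

/-! ### sizes -/

theorem cost_le (n : ℕ) (d : ℕ → Bool) (i j : ℕ) (p : ℕ → ℤ) (hj : j ≤ n) :
    cost n d i j p ≤ (n + 1) * (n + 2) := by
  unfold cost
  have h1 : ∀ x ∈ Finset.Ico i (j + 1), ovr p i j (p x) + rayL d i p (p x) + rayR n d j p (p x) ≤
      n + 2 := by
    intro x _
    have e1 : ovr p i j (p x) ≤ n := by
      unfold ovr
      calc ∑ k ∈ Finset.Ico i j, (if Btw (p k) (p x) (p (k + 1)) then 1 else 0)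
          ≤ ∑ _k ∈ Finset.Ico i j, 1 := Finset.sum_le_sum fun k _ => by split_ifs <;> simp
        _ ≤ n := by simp; omega
    have e2 : rayL d i p (p x) ≤ 1 := by
      unfold rayL
      split_ifs <;> simp
    have e3 : rayR n d j p (p x) ≤ 1 := by
      unfold rayR
      split_ifs <;> simp
    omega
  calc _ ≤ ∑ _x ∈ Finset.Ico i (j + 1), (n + 2) := Finset.sum_le_sum h1
    _ = (j + 1 - i) * (n + 2) := by simp
    _ ≤ (n + 1) * (n + 2) := Nat.mul_le_mul_right _ (by omega)

theorem sz_cand_le {n : ℕ} {d : ℕ → Bool} {i j : ℕ} {o : Bool} {x : ℕ × List ℕ} (hj : j ≤ n)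
    (h : Snd n d i j o x) (N : ℕ) (hN : n + 1 ≤ N) : sz x ≤ 8 * (N * (N + 1)) + 3 := by
  obtain ⟨h1, h2, _, h4, _⟩ := h
  have hc : x.1 ≤ N * (N + 1) := by
    rw [← h4]
    exact (cost_le n d i j _ hj).trans (Nat.mul_le_mul hN (by omega))
  have hs1 : sz x.1 ≤ 4 * (N * (N + 1)) + 1 := by
    have e1 := sz_nat_le x.1
    have e2 : x.1.size ≤ x.1 := Nat.size_le.2 Nat.lt_two_pow_self
    omega
  have hlen : x.2.length ≤ N := by
    have e1 : x.2.toFinset ⊆ Finset.Ico i (j + 1) := fun y hy => by
      rw [List.mem_toFinset, h2] at hy
      rw [Finset.mem_Ico]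
      omega
    have e2 := Finset.card_le_card e1
    rw [List.toFinset_card_of_nodup h1, Nat.card_Ico] at e2
    omega
  have hs2 := sz_le_length_mul x.2 (4 * N) (by
    intro a ha
    have e0 := (h2 a).1 ha
    have e1 := sz_nat_le a
    have e2 : a.size ≤ a := Nat.size_le.2 Nat.lt_two_pow_self
    omega)
  have hs3 : x.2.length * (4 * N + 1) ≤ N * (4 * N + 1) := Nat.mul_le_mul_right _ hlen
  have hx : sz x = sz x.1 + sz x.2 + 1 := by
    obtain ⟨a, b⟩ := x
    simp
  rw [hx]
  nlinarith

theorem sz_rows_le (n : ℕ) (d : ℕ → Bool) (t : ℕ) (ht : t ≤ n + 1) (N : ℕ) (hN : n + 1 ≤ N) :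
    sz (rows n d t) ≤ N * (N * (2 * (8 * (N * (N + 1)) + 5) + 2) + 2) + 1 := by
  have hentry : ∀ len < t, ∀ i, i + len ≤ n → ∀ o,
      (look (rows n d t) len i o).length ≤ 1 ∧
      sz (look (rows n d t) len i o) ≤ 8 * (N * (N + 1)) + 5 := by
    intro len hlen i hi o
    have hl : (look (rows n d t) len i o).length ≤ 1 := by
      clear ht
      induction t with
      | zero => omega
      | succ t ih =>
        rw [rows_succ]
        rcases Nat.lt_succ_iff_lt_or_eq.1 hlen with h | rfl
        · rw [look_old (by rw [rows_length]; exact h)]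
          exact ih h
        · rw [look_new (rows_length n d len) hi]
          split_ifs
          · simp
          · exact best_length _
    refine ⟨hl, ?_⟩
    have hg := (rows_good n d t len hlen i hi).1 o
    cases hL : look (rows n d t) len i o with
    | nil => simp
    | cons x l =>
      rw [hL] at hl hg
      cases l with
      | nil =>
        have := sz_cand_le (by omega) (hg x (by simp)) N hN
        simp only [sz_list_cons, sz_list_nil]
        omega
      | cons y l => simp at hl
  have hrow : ∀ r ∈ rows n d t, sz r ≤ N * (2 * (8 * (N * (N + 1)) + 5) + 2) + 1 := by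
    intro r hr
    obtain ⟨len, hlen, rfl⟩ := List.getElem_of_mem hr
    have hlen' : len < t := by rwa [rows_length] at hlen
    have hrl : ((rows n d t)[len]).length = n + 1 - len := by
      clear hentry hr ht
      induction t with
      | zero => omega
      | succ t ih =>
        rcases Nat.lt_succ_iff_lt_or_eq.1 hlen' with h | rfl
        · have e : (rows n d (t + 1))[len] = (rows n d t)[len]'(by rw [rows_length]; exact h) := by
            simp only [rows_succ]
            rw [List.getElem_append_left]
          rw [e]
          exact ih _ h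
        · have e : (rows n d (len + 1))[len] = newRow n d (rows n d len) len := by
            simp only [rows_succ]
            rw [List.getElem_append_right (by rw [rows_length])]
            simp [rows_length]
          rw [e]
          simp [newRow]
    have h1 := sz_le_length_mul ((rows n d t)[len]) (2 * (8 * (N * (N + 1)) + 5) + 1) (by
      intro e he
      obtain ⟨i, hi, rfl⟩ := List.getElem_of_mem he
      rw [hrl] at hi
      have e1 := (hentry len hlen' i (by omega) true).2
      have e2 := (hentry len hlen' i (by omega) false).2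
      have e3 : ((rows n d t).getD len []).getD i ([], []) = ((rows n d t)[len])[i]'(by
          rw [hrl]; exact hi) := by
        rw [List.getD_eq_getElem (hn := hlen), List.getD_eq_getElem (hn := by rw [hrl]; exact hi)]
      unfold look at e1 e2
      rw [e3] at e1 e2
      simp only [if_true, Bool.false_eq_true, if_false] at e1 e2
      have e4 : sz (((rows n d t)[len])[i]'(by rw [hrl]; exact hi)) =
          sz (((rows n d t)[len])[i]'(by rw [hrl]; exact hi)).1 +
          sz (((rows n d t)[len])[i]'(by rw [hrl]; exact hi)).2 + 1 := by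
        generalize ((rows n d t)[len])[i]'(by rw [hrl]; exact hi) = z
        obtain ⟨a, b⟩ := z
        simp
      rw [e4]
      omega)
    refine h1.trans ?_
    rw [hrl]
    exact Nat.add_le_add_right (Nat.mul_le_mul_right _ (by omega)) 1
  have h2 := sz_le_length_mul (rows n d t) _ hrow
  refine h2.trans ?_
  rw [rows_length]
  exact Nat.add_le_add_right (Nat.mul_le_mul_right _ (by omega)) 1

theorem poly_rows : Poly (fun s : List Bool => rows s.length (dirOf s) (s.length + 1)) := by
  have hstep : Poly (fun p : List Bool × Tab × ℕ =>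
      p.2.1 ++ [newRow p.1.length (dirOf p.1) p.2.1 p.2.1.length]) := by
    fun_prop
  have hl : Poly (fun s : List Bool => List.range (s.length + 1)) :=
    (UPoly.add (UPoly.length Poly.id) (UPoly.const 1)).range
  refine (Poly.foldl (s := fun _ => ([] : Tab))
    (F := fun s (R : Tab) (_ : ℕ) => R ++ [newRow s.length (dirOf s) R R.length]) hl
    (NPC.Poly.const ([] : Tab)) hstep
    (Polynomial.X * (Polynomial.X * (Polynomial.C 2 * (Polynomial.C 8 *
      (Polynomial.X * (Polynomial.X + Polynomial.C 1)) + Polynomial.C 5) + Polynomial.C 2) +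
      Polynomial.C 2) + Polynomial.C 1) ?_).congr fun s => ?_
  · intro s k hk
    rw [List.length_range] at hk
    rw [rows_eq s k _ (by rw [List.length_take, List.length_range]; omega)]
    have := sz_rows_le s.length (dirOf s) k hk (sz s) (by have := length_lt_sz s; omega)
    simp only [Polynomial.eval_add, Polynomial.eval_mul, Polynomial.eval_X, Polynomial.eval_C]
    exact this
  · exact rows_eq s (s.length + 1) _ (by rw [List.length_range])

theorem poly_solve : Poly (fun s : List Bool => solve s.length (dirOf s)) := by
  unfold solve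
  have := poly_rows
  fun_prop

end Pool.Agent.H586R2.Stamp
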