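import Pool.Agent.H586R2.Stamp.Core

/-!
# Splitting a block at its earliest extreme point does not increase the cost
-/

namespace Pool.Agent.H586R2.Stamp

variable {n : ℕ} {d : ℕ → Bool} {i j a b : ℕ} {p : ℕ → ℤ}

theorem GF.ne (h : GF n d i j p) {x y : ℕ} (h1 : i ≤ x) (h2 : x ≤ j) (h3 : i ≤ y) (h4 : y ≤ j)
    (h5 : x ≠ y) : p x ≠ p y := fun e => h5 (h.inj x y h1 h2 h3 h4 e)

theorem GF.min_lt (h : GF n d i j p) (hia : i ≤ a) (haj : a ≤ j)
    (hmin : ∀ x, i ≤ x → x ≤ j → p a ≤ p x) {x : ℕ} (h1 : i ≤ x) (h2 : x ≤ j) (h3 : x ≠ a) :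
    p a < p x := lt_of_le_of_ne (hmin x h1 h2) (h.ne hia haj h1 h2 (Ne.symm h3))

/-- If there is a left ray, the leftmost point has the parity of `i` (when it comes before the
rightmost point). -/
theorem GF.parity (h : GF n d i j p) (hi : i ≠ 0) (hia : i ≤ a) (hab : a < b) (hbj : b ≤ j)
    (hmin : ∀ x, i ≤ x → x ≤ j → p a ≤ p x) (hmax : ∀ x, i ≤ x → x ≤ j → p x ≤ p b) :
    a % 2 = i % 2 := by
  by_contra hpar
  have hlt : ∀ x, i ≤ x → x ≤ j → x ≠ a → p a < p x := fun x h1 h2 h3 =>
    h.min_lt hia (by omega) hmin h1 h2 h3
  have hcon : ∀ x, a + 1 ≤ x → x ≤ b → lpar p i a (p x) = lpar p i a (p (a + 1)) := by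
    intro x hx
    induction x, hx using Nat.le_induction with
    | base => intro _; rfl
    | succ x hx ih =>
      intro hxb
      rw [← ih (by omega)]
      symm
      apply par_step p i a x hpar hia
      · intro k h1 h2
        exact ⟨h.ne h1 (by omega) (by omega) (by omega) (by omega),
          h.ne h1 (by omega) (by omega) (by omega) (by omega)⟩
      · intro hxi k h1 h2 h3
        exact h.nc x k (by omega) (by omega) h1 (by omega) (by omega) (by omega)
      · intro hxi
        refine ⟨fun k h1 h2 h3 =>
          h.nc x k (by omega) (by omega) h1 (by omega) (by omega) (by omega), ?_⟩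
        have e1 := h.expL hi x (by omega) (by omega) (by omega)
        have e2 : ¬ Btw (p x) (p a) (p (x + 1)) := by
          have := hlt x (by omega) (by omega) (by omega)
          have := hlt (x + 1) (by omega) (by omega) (by omega)
          unfold Btw
          omega
        exact iff_of_false e1 e2
  have h1 : lpar p i a (p b) = 0 := lpar_all p i a (p b) hpar hia (fun k h1 h2 =>
    lt_of_le_of_ne (hmax k h1 (by omega)) (h.ne h1 (by omega) (by omega) hbj (by omega)))
  have h2 : lpar p i a (p (a + 1)) = 1 := by
    have e1 : ¬ p i < p (a + 1) := by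
      have e2 := h.expL hi a hia (by omega) hpar
      have e3 := hlt i le_rfl (by omega) (by omega)
      unfold Btw at e2
      omega
    have e4 : p a < p (a + 1) := hlt (a + 1) (by omega) (by omega) (by omega)
    rw [lpar_ends p i a _ hpar hia, if_neg e1, if_pos e4, zero_add]
    intro k h1 h2 h3
    have e5 := h.nc a k hia (by omega) h1 (by omega) (by omega) (by omega)
    have e6 := hlt k h1 (by omega) (by omega)
    by_cases e7 : k + 1 = a
    · omega
    · have e8 := hlt (k + 1) (by omega) (by omega) e7
      unfold Btw at e5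
      omega
  rw [hcon b (by omega) le_rfl, h2] at h1
  exact one_ne_zero h1

/-- If the right ray is on the side of arc `a`, the arc `a` lies to the left of `j`. -/
theorem GF.right_order (h : GF n d i j p) (hj : j ≠ n) (hia : i ≤ a) (hab : a < j)
    (hpar : j % 2 = a % 2) (hmin : ∀ x, i ≤ x → x ≤ j → p a ≤ p x) : p (a + 1) < p j := by
  have h1 := h.expR hj a hia hab hpar.symm
  have h2 := h.min_lt hia (by omega) hmin (x := a + 1) (by omega) (by omega) (by omega)
  have h3 := h.min_lt hia (by omega) hmin (x := j) (by omega) (by omega) (by omega)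
  have h4 := h.ne (x := a + 1) (y := j) (by omega) (by omega) (by omega) (by omega) (by omega)
  unfold Btw at h1
  omega

/-- If both rays are on the same side, the order of the two ends is the direction of the cut. -/
theorem GF.ends_order (h : GF n d i j p) (hi : i ≠ 0) (hj : j ≠ n) (hij : j % 2 ≠ i % 2)
    (hia : i ≤ a) (haj : a < j) (hpar : a % 2 = i % 2)
    (hmin : ∀ x, i ≤ x → x ≤ j → p a ≤ p x) : p i < p j := by
  have hlt : ∀ x, i ≤ x → x ≤ j → x ≠ a → p a < p x := fun x h1 h2 h3 =>
    h.min_lt hia (by omega) hmin h1 h2 h3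
  rcases Nat.eq_or_lt_of_le hia with rfl | hia'
  · exact hlt j (by omega) le_rfl (by omega)
  obtain ⟨c, rfl⟩ : ∃ c, a = c + 1 := ⟨a - 1, by omega⟩
  by_contra hcon0
  have hij2 : p j < p i := lt_of_le_of_ne (not_lt.1 hcon0)
    (h.ne (by omega) le_rfl le_rfl (by omega) (by omega))
  have hJ : j % 2 ≠ (c + 1) % 2 := by omega
  have hcon : ∀ x, i ≤ x → x ≤ c → lpar p (c + 1) j (p x) = lpar p (c + 1) j (p i) := by
    intro x hx
    induction x, hx using Nat.le_induction with
    | base => intro _; rfl
    | succ x hx ih =>
      intro hxb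
      rw [← ih (by omega)]
      symm
      apply par_step p (c + 1) j x hJ (by omega)
      · intro k h1 h2
        exact ⟨h.ne (by omega) (by omega) (by omega) (by omega) (by omega),
          h.ne (by omega) (by omega) (by omega) (by omega) (by omega)⟩
      · intro hxi k h1 h2 h3
        exact h.nc x k (by omega) (by omega) (by omega) (by omega) (by omega) (by omega)
      · intro hxi
        refine ⟨fun k h1 h2 h3 =>
          h.nc x k (by omega) (by omega) (by omega) (by omega) (by omega) (by omega), ?_⟩
        have e1 := h.expR hj x (by omega) (by omega) (by omega)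
        have e2 : ¬ Btw (p x) (p (c + 1)) (p (x + 1)) := by
          have := hlt x (by omega) (by omega) (by omega)
          have := hlt (x + 1) (by omega) (by omega) (by omega)
          unfold Btw
          omega
        exact iff_of_false e2 e1
  have h1 : lpar p (c + 1) j (p i) = 0 := by
    have e4 : p (c + 1) < p i := hlt i (by omega) (by omega) (by omega)
    rw [lpar_ends p (c + 1) j _ hJ (by omega), if_pos hij2, if_pos e4]
    · exact CharTwo.add_self_eq_zero _
    intro k h1 h2 h3
    have e5 := h.expL hi k (by omega) (by omega) (by omega)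
    have e6 := h.ne (x := k) (y := i) (by omega) (by omega) (by omega) (by omega) (by omega)
    have e7 := h.ne (x := k + 1) (y := i) (by omega) (by omega) (by omega) (by omega) (by omega)
    unfold Btw at e5
    omega
  have h2 : lpar p (c + 1) j (p c) = 1 := by
    have e1 : ¬ p j < p c := by
      have e2 := h.expR hj c (by omega) (by omega) (by omega)
      have e3 := hlt j (by omega) (by omega) (by omega)
      unfold Btw at e2
      omega
    have e4 : p (c + 1) < p c := hlt c (by omega) (by omega) (by omega)
    rw [lpar_ends p (c + 1) j _ hJ (by omega), if_pos e4, if_neg e1, add_zero]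
    intro k h1 h2 h3
    have e5 := h.nc c k (by omega) (by omega) (by omega) (by omega) (by omega) (by omega)
    have e6 := hlt k (by omega) (by omega) (by omega)
    have e8 := hlt (k + 1) (by omega) (by omega) (by omega)
    unfold Btw at e5
    omega
  rw [hcon c (by omega) le_rfl, h1] at h2
  exact zero_ne_one h2

/-! ### restricting to the two parts -/

theorem GF.left_part (h : GF n d i j p) (hia : i ≤ a) (haj : a < j)
    (hmin : ∀ x, i ≤ x → x ≤ j → p a ≤ p x) : GF n d i a p where
  inj x y h1 h2 h3 h4 h5 := h.inj x y h1 (by omega) h3 (by omega) h5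
  dir k h1 h2 := h.dir k h1 (by omega)
  nc k l h1 h2 h3 h4 h5 h6 := h.nc k l h1 (by omega) h3 (by omega) h5 h6
  expL h0 l h1 h2 h3 := h.expL h0 l h1 (by omega) h3
  expR h0 l h1 h2 h3 := by
    have e1 := h.min_lt hia (by omega) hmin (x := l) (by omega) (by omega) (by omega)
    have e2 := hmin (l + 1) (by omega) (by omega)
    unfold Btw
    omega

theorem GF.right_part (h : GF n d i j p) (hia : i ≤ a) (haj : a < j)
    (hmin : ∀ x, i ≤ x → x ≤ j → p a ≤ p x) : GF n d (a + 1) j p where
  inj x y h1 h2 h3 h4 h5 := h.inj x y (by omega) h2 (by omega) h4 h5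
  dir k h1 h2 := h.dir k (by omega) h2
  nc k l h1 h2 h3 h4 h5 h6 := h.nc k l (by omega) h2 (by omega) h4 h5 h6
  expL h0 l h1 h2 h3 := by
    have e1 := h.min_lt hia (by omega) hmin (x := l) (by omega) (by omega) (by omega)
    have e2 := h.min_lt hia (by omega) hmin (x := l + 1) (by omega) (by omega) (by omega)
    have e3 := h.nc a l hia haj (by omega) h2 (by omega) (by omega)
    have e4 := h.ne (x := l) (y := a + 1) (by omega) (by omega) (by omega) (by omega) (by omega)
    unfold Btw at e3 ⊢
    omega
  expR h0 l h1 h2 h3 := h.expR h0 l (by omega) h2 h3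

/-- The cost inequality. -/
theorem GF.cost_split (h : GF n d i j p) (hia : i ≤ a) (hab : a < b) (hbj : b ≤ j)
    (hmin : ∀ x, i ≤ x → x ≤ j → p a ≤ p x) (hmax : ∀ x, i ≤ x → x ≤ j → p x ≤ p b) :
    cost n d i a p + cost n d (a + 1) j p + (if i ≠ 0 ∧ d (i - 1) = false then j - a else 0) +
      (if j ≠ n ∧ d j = false then a + 1 - i else 0) ≤ cost n d i j p := by
  have hlt : ∀ x, i ≤ x → x ≤ j → x ≠ a → p a < p x := fun x h1 h2 h3 =>
    h.min_lt hia (by omega) hmin h1 h2 h3
  have hda : d a = true := (h.dir a hia (by omega)).2 (hlt (a + 1) (by omega) (by omega) (by omega))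
  have hw : ∀ x, ovr p i j (p x) = ovr p i a (p x) +
      (if Btw (p a) (p x) (p (a + 1)) then 1 else 0) + ovr p (a + 1) j (p x) := fun x => by
    rw [over_split p (p x) hia (show a ≤ j by omega), over_head p (p x) (show a < j by omega),
      add_assoc]
  have hA : ∀ x ∈ Finset.Ico i (a + 1), ovr p i a (p x) + rayL d i p (p x) + rayR n d a p (p x) +
      (if j ≠ n ∧ d j = false then 1 else 0) ≤
      ovr p i j (p x) + rayL d i p (p x) + rayR n d j p (p x) := by
    intro x hx
    rw [Finset.mem_Ico] at hx
    rw [hw x]
    have e1 : rayR n d a p (p x) ≤ (if p a < p x then 1 else 0) := by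
      unfold rayR
      split_ifs with c1 c2 c2
      · exact le_rfl
      · exfalso
        rcases c1.2 with c3 | c3
        · exact c2 c3.2
        · rw [hda] at c3
          exact Bool.noConfusion c3.1
      · exact Nat.zero_le _
      · exact le_rfl
    have e2 : (if j ≠ n ∧ d j = false then 1 else 0) ≤ rayR n d j p (p x) +
        (if p j < p x then 1 else 0) := by
      unfold rayR
      split_ifs with c1 c2 c3 c3 <;> try omega
      · exfalso
        have := h.ne (x := x) (y := j) (by omega) (by omega) (by omega) (by omega) (by omega)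
        apply c2
        exact ⟨c1.1, Or.inr ⟨c1.2, by omega⟩⟩
    have e3 : (if p a < p x then 1 else 0) + (if p j < p x then 1 else 0) ≤
        (if Btw (p a) (p x) (p (a + 1)) then 1 else 0) + ovr p (a + 1) j (p x) := by
      by_cases hxa : x = a
      · subst hxa
        rw [if_neg (lt_irrefl _), if_neg (not_lt.2 (hmin j (by omega) le_rfl))]
        exact Nat.zero_le _
      · have c0 := hlt x (by omega) (by omega) hxa
        have hxb := lt_of_le_of_ne (hmax x (by omega) (by omega))
          (h.ne (x := x) (y := b) (by omega) (by omega) (by omega) (by omega) (by omega))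
        rw [if_pos c0, over_split p (p x) (show a + 1 ≤ b by omega) hbj]
        have c1 : 1 ≤ (if Btw (p a) (p x) (p (a + 1)) then 1 else 0) + ovr p (a + 1) b (p x) := by
          by_cases c2 : p x < p (a + 1)
          · rw [if_pos (show Btw (p a) (p x) (p (a + 1)) from Or.inl ⟨c0, c2⟩)]
            omega
          · have := one_le_over p (p x) (a + 1) b (by omega)
              (fun k h1 h2 => h.ne (by omega) (by omega) (by omega) (by omega) (by omega)) (by
                have := h.ne (x := x) (y := a + 1) (by omega) (by omega) (by omega) (by omega)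
                  (by omega)
                omega)
            omega
        have c2 : (if p j < p x then 1 else 0) ≤ ovr p b j (p x) := by
          split_ifs with c3
          · exact one_le_over p (p x) b j hbj
              (fun k h1 h2 => h.ne (by omega) (by omega) (by omega) (by omega) (by omega)) (by
                omega)
          · exact Nat.zero_le _
        omega
    omega
  have hB : ∀ x ∈ Finset.Ico (a + 1) (j + 1), ovr p (a + 1) j (p x) + rayL d (a + 1) p (p x) +
      rayR n d j p (p x) + (if i ≠ 0 ∧ d (i - 1) = false then 1 else 0) ≤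
      ovr p i j (p x) + rayL d i p (p x) + rayR n d j p (p x) := by
    intro x hx
    rw [Finset.mem_Ico] at hx
    rw [hw x]
    have c0 := hlt x (by omega) (by omega) (by omega)
    have e1 : rayL d (a + 1) p (p x) ≤ (if Btw (p a) (p x) (p (a + 1)) then 1 else 0) := by
      unfold rayL
      split_ifs with c1 c2 c2
      · exact le_rfl
      · exfalso
        rcases c1.2 with c3 | c3
        · exact c2 (Or.inl ⟨c0, c3.2⟩)
        · rw [Nat.add_sub_cancel, hda] at c3
          exact Bool.noConfusion c3.1
      · exact Nat.zero_le _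
      · exact le_rfl
    have e2 : (if i ≠ 0 ∧ d (i - 1) = false then 1 else 0) ≤ rayL d i p (p x) +
        (if p x < p i then 1 else 0) := by
      unfold rayL
      split_ifs with c1 c2 c3 c3 <;> try omega
      · exfalso
        have := h.ne (x := x) (y := i) (by omega) (by omega) (by omega) (by omega) (by omega)
        apply c2
        exact ⟨c1.1, Or.inr ⟨c1.2, by omega⟩⟩
    have e3 : (if p x < p i then 1 else 0) ≤ ovr p i a (p x) := by
      split_ifs with c3
      · exact one_le_over p (p x) i a hia
          (fun k h1 h2 => h.ne (by omega) (by omega) (by omega) (by omega) (by omega)) (by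
            omega)
      · exact Nat.zero_le _
    omega
  have hA' := Finset.sum_le_sum hA
  have hB' := Finset.sum_le_sum hB
  rw [Finset.sum_add_distrib, Finset.sum_const, Nat.card_Ico] at hA' hB'
  have hs := Finset.sum_Ico_consecutive
    (fun x => ovr p i j (p x) + rayL d i p (p x) + rayR n d j p (p x))
    (show i ≤ a + 1 by omega) (show a + 1 ≤ j + 1 by omega)
  have e1 : (a + 1 - i) • (if j ≠ n ∧ d j = false then 1 else 0) =
      (if j ≠ n ∧ d j = false then a + 1 - i else 0) := by
    split_ifs <;> simp
  have e2 : (j + 1 - (a + 1)) • (if i ≠ 0 ∧ d (i - 1) = false then 1 else 0) =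
      (if i ≠ 0 ∧ d (i - 1) = false then j - a else 0) := by
    split_ifs <;> simp
  rw [e1] at hA'
  rw [e2] at hB'
  unfold cost
  rw [← hs]
  omega

/-- Splitting a block, in both directions. -/
theorem GF.split (h : GF n d i j p) (hij : i < j) :
    ∃ m, i ≤ m ∧ m < j ∧ (i ≠ 0 → m % 2 = i % 2) ∧ GF n d i m p ∧ GF n d (m + 1) j p ∧
      (j ≠ n → j % 2 = m % 2 → (d m = true ↔ p (m + 1) < p j)) ∧
      (i ≠ 0 → j ≠ n → j % 2 ≠ i % 2 → (d m = true ↔ p i < p j)) ∧
      cost n d i m p + cost n d (m + 1) j p + (if i ≠ 0 ∧ d (i - 1) ≠ d m then j - m else 0) +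
      (if j ≠ n ∧ d j ≠ d m then m + 1 - i else 0) ≤ cost n d i j p := by
  obtain ⟨a, ha, hmin⟩ := Finset.exists_min_image (Finset.Icc i j) p ⟨i, by simp; omega⟩
  obtain ⟨b, hb, hmax⟩ := Finset.exists_max_image (Finset.Icc i j) p ⟨i, by simp; omega⟩
  rw [Finset.mem_Icc] at ha hb
  have hmin' : ∀ x, i ≤ x → x ≤ j → p a ≤ p x := fun x h1 h2 => hmin x (Finset.mem_Icc.2 ⟨h1, h2⟩)
  have hmax' : ∀ x, i ≤ x → x ≤ j → p x ≤ p b := fun x h1 h2 => hmax x (Finset.mem_Icc.2 ⟨h1, h2⟩)
  rcases lt_trichotomy a b with hab | hab | hab
  · refine ⟨a, ha.1, by omega, fun hi => h.parity hi ha.1 hab hb.2 hmin' hmax',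
      h.left_part ha.1 (by omega) hmin', h.right_part ha.1 (by omega) hmin', ?_, ?_, ?_⟩
    · intro hj hpar
      have hda : d a = true := (h.dir a ha.1 (by omega)).2
        (h.min_lt ha.1 ha.2 hmin' (by omega) (by omega) (by omega))
      exact iff_of_true hda (h.right_order hj ha.1 (by omega) hpar hmin')
    · intro hi hj hpar
      have hda : d a = true := (h.dir a ha.1 (by omega)).2
        (h.min_lt ha.1 ha.2 hmin' (by omega) (by omega) (by omega))
      exact iff_of_true hda (h.ends_order hi hj hpar ha.1 (by omega)
        (h.parity hi ha.1 hab hb.2 hmin' hmax') hmin')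
    · have hda : d a = true := (h.dir a ha.1 (by omega)).2
        (h.min_lt ha.1 ha.2 hmin' (by omega) (by omega) (by omega))
      have := h.cost_split ha.1 hab hb.2 hmin' hmax'
      rw [hda]
      simpa using this
  · exfalso
    subst hab
    have h1 := le_antisymm (hmin' i le_rfl hij.le) (hmax' i le_rfl hij.le)
    have h2 := le_antisymm (hmin' j hij.le le_rfl) (hmax' j hij.le le_rfl)
    have := h.inj i j le_rfl hij.le hij.le le_rfl (h1.symm.trans h2)
    omega
  · have h' := h.flip
    have hmin2 : ∀ x, i ≤ x → x ≤ j → (fun k => -(p k)) b ≤ (fun k => -(p k)) x :=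
      fun x h1 h2 => neg_le_neg (hmax' x h1 h2)
    have hmax2 : ∀ x, i ≤ x → x ≤ j → (fun k => -(p k)) x ≤ (fun k => -(p k)) a :=
      fun x h1 h2 => neg_le_neg (hmin' x h1 h2)
    have hdb : d b = false := by
      have := (h'.dir b hb.1 (by omega)).2
        (h'.min_lt hb.1 hb.2 hmin2 (by omega) (by omega) (by omega))
      simpa using this
    have e1 : GF n d i b p := by
      have := (h'.left_part hb.1 (by omega) hmin2).flip
      simpa using this
    have e2 : GF n d (b + 1) j p := by
      have := (h'.right_part hb.1 (by omega) hmin2).flip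
      simpa using this
    refine ⟨b, hb.1, by omega, fun hi => h'.parity hi hb.1 hab ha.2 hmin2 hmax2, e1, e2, ?_, ?_, ?_⟩
    · intro hj hpar
      have := h'.right_order hj hb.1 (by omega) hpar hmin2
      refine iff_of_false (by simp [hdb]) ?_
      simp only [neg_lt_neg_iff] at this
      omega
    · intro hi hj hpar
      have := h'.ends_order hi hj hpar hb.1 (by omega)
        (h'.parity hi hb.1 hab ha.2 hmin2 hmax2) hmin2
      refine iff_of_false (by simp [hdb]) ?_
      simp only [neg_lt_neg_iff] at this
      omega
    · have := h'.cost_split hb.1 hab ha.2 hmin2 hmax2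
      rw [cost_flip, cost_flip, cost_flip] at this
      rw [hdb]
      simpa using this

end Pool.Agent.H586R2.Stamp
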